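import Mathlib

/-!
# Numeric part: the two recursions force a nonzero defect
-/

namespace Pool.Agent.R171.NC

open Finset

/-- `b` may be the previous element of `e` in its block: either `b = e - 1` or there is a corner
strictly between -/
def valid (cor : ℕ → Prop) (b e : ℕ) : Prop := b + 1 = e ∨ ∃ c, cor c ∧ b < c ∧ c < e

section

variable {cor : ℕ → Prop} {H : ℝ → ℕ → ℕ → ℝ} {Z : ℝ → ℕ → ℝ}

open Classical in
/-- the recursion of `H` -/
def RecH (cor : ℕ → Prop) (H : ℝ → ℕ → ℕ → ℝ) : Prop :=
  (∀ q a, H q a 0 = 1) ∧ ∀ q a m, H q a (m + 1) = H q a m +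
    q * ∑ j ∈ range m, if valid cor (a + j) (a + m) then
      H q a (j + 1) * H q (a + j + 1) (m - 1 - j) else 0

open Classical in
/-- the recursion of `Z` -/
def RecZ (cor : ℕ → Prop) (H : ℝ → ℕ → ℕ → ℝ) (Z : ℝ → ℕ → ℝ) : Prop :=
  (∀ q, Z q 0 = 1) ∧ ∀ q n, Z q (n + 1) =
    q * ∑ b ∈ range (n + 1), if valid cor b (n + 1) then Z q b * H q (b + 1) (n - b) else 0

theorem H_sym (hH : RecH cor H) : ∀ m a, H 2 a (m + 1) = 2 ^ m * H (1 / 2) a (m + 1) := by
  classical
  intro m
  induction m using Nat.strong_induction_on with
  | _ m ih =>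
      intro a
      rcases Nat.eq_zero_or_pos m with rfl | hm
      · rw [hH.2, hH.2]
        simp [hH.1]
      · obtain ⟨k, rfl⟩ : ∃ k, m = k + 1 := ⟨m - 1, by omega⟩
        rw [hH.2 2 a (k + 1), hH.2 (1 / 2) a (k + 1), sum_range_succ, sum_range_succ]
        have hv : valid cor (a + k) (a + (k + 1)) := Or.inl (by ring)
        rw [if_pos hv, if_pos hv]
        rw [show k + 1 - 1 - k = 0 by omega, hH.1, hH.1, ih k (by omega) a]
        have hs : ∑ j ∈ range k, (if valid cor (a + j) (a + (k + 1)) then
            H 2 a (j + 1) * H 2 (a + j + 1) (k + 1 - 1 - j) else 0) =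
            2 ^ (k - 1) * ∑ j ∈ range k, (if valid cor (a + j) (a + (k + 1)) then
            H (1 / 2) a (j + 1) * H (1 / 2) (a + j + 1) (k + 1 - 1 - j) else 0) := by
          rw [mul_sum]
          apply sum_congr rfl
          intro j hj
          rw [mem_range] at hj
          split_ifs with h
          · rw [ih j (by omega) a]
            obtain ⟨i, hi⟩ : ∃ i, k + 1 - 1 - j = i + 1 := ⟨k - 1 - j, by omega⟩
            rw [hi, ih i (by omega) (a + j + 1)]
            have he : 2 ^ (k - 1) = (2 : ℝ) ^ j * 2 ^ i := by
              rw [← pow_add]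
              congr 1
              omega
            rw [he]
            ring
          · ring
        rw [hs]
        rcases Nat.eq_zero_or_pos k with rfl | hk
        · simp
          ring
        · obtain ⟨l, rfl⟩ : ∃ l, k = l + 1 := ⟨k - 1, by omega⟩
          rw [show l + 1 - 1 = l by omega]
          ring

theorem H_eq_sum (hH : RecH cor H) (hZ : RecZ cor H Z) (q : ℝ) :
    ∀ m, 1 ≤ m → H q 0 m = ∑ y ∈ range m, Z q y * H q (y + 1) (m - 1 - y) := by
  classical
  intro m
  induction m using Nat.strong_induction_on with
  | _ m ih =>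
      intro hm
      obtain ⟨m, rfl⟩ : ∃ k, m = k + 1 := ⟨m - 1, by omega⟩
      rcases Nat.eq_zero_or_pos m with rfl | hmpos
      · rw [hH.2]
        simp [hH.1, hZ.1]
      · rw [sum_range_succ, show m + 1 - 1 - m = 0 by omega, hH.1, mul_one]
        -- expand
        have h1 : ∀ y ∈ range m, Z q y * H q (y + 1) (m + 1 - 1 - y) =
            Z q y * H q (y + 1) (m - 1 - y) +
            q * ∑ b ∈ range m, (if y < b then (if valid cor b m then
              Z q y * (H q (y + 1) (b - y) * H q (b + 1) (m - 1 - b)) else 0) else 0) := by
          intro y hy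
          rw [mem_range] at hy
          obtain ⟨i, hi⟩ : ∃ i, m + 1 - 1 - y = i + 1 := ⟨m - 1 - y, by omega⟩
          rw [hi, hH.2, mul_add, show m - 1 - y = i by omega]
          congr 1
          rw [mul_left_comm, mul_sum]
          congr 1
          rw [← sum_filter, ← sum_filter]
          -- reindex b = y + 1 + j
          have : (range m).filter (fun b => y < b) = (range i).image (fun j => y + 1 + j) := by
            ext b
            simp only [mem_filter, mem_range, mem_image]
            constructor
            · rintro ⟨h1, h2⟩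
              exact ⟨b - (y + 1), by omega, by omega⟩
            · rintro ⟨j, hj, rfl⟩
              omega
          rw [sum_filter, this, sum_image (by intro x _ x' _ h; simpa using h)]
          apply sum_congr rfl
          intro j hj
          rw [mem_range] at hj
          have e1 : y + 1 + i = m := by omega
          rw [e1]
          split_ifs with h
          · rw [show y + 1 + j - y = j + 1 by omega,
              show m - 1 - (y + 1 + j) = i - 1 - j by omega]
          · ring
        rw [sum_congr rfl h1, sum_add_distrib, ← ih m (by omega) hmpos]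
        -- swap the double sum
        rw [← mul_sum, sum_comm]
        have h2 : ∀ b ∈ range m, ∑ y ∈ range m, (if y < b then (if valid cor b m then
              Z q y * (H q (y + 1) (b - y) * H q (b + 1) (m - 1 - b)) else 0) else 0) =
            (if valid cor b m then (H q 0 (b + 1) - Z q b) * H q (b + 1) (m - 1 - b) else 0) := by
          intro b hb
          rw [mem_range] at hb
          split_ifs with hv
          · rw [ih (b + 1) (by omega) (by omega), sum_range_succ,
              show b + 1 - 1 - b = 0 by omega, hH.1, mul_one, add_sub_cancel_right, sum_mul]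
            rw [← sum_filter]
            have : (range m).filter (fun y => y < b) = range b := by
              ext y
              simp only [mem_filter, mem_range]
              omega
            rw [this]
            apply sum_congr rfl
            intro y hy
            rw [show b + 1 - 1 - y = b - y by omega]
            ring
          · simp
        rw [sum_congr rfl h2]
        have h3 : Z q m = q * ∑ b ∈ range m, (if valid cor b m then
            Z q b * H q (b + 1) (m - 1 - b) else 0) := by
          obtain ⟨l, rfl⟩ : ∃ l, m = l + 1 := ⟨m - 1, by omega⟩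
          rw [hZ.2]
          congr 1
        have h4 := hH.2 q 0 m
        simp only [zero_add] at h4
        rw [h4]
        have h5 : ∑ b ∈ range m, (if valid cor b m then
            (H q 0 (b + 1) - Z q b) * H q (b + 1) (m - 1 - b) else 0) =
            ∑ b ∈ range m, (if valid cor b m then
              H q 0 (b + 1) * H q (b + 1) (m - 1 - b) else 0) -
            ∑ b ∈ range m, (if valid cor b m then
              Z q b * H q (b + 1) (m - 1 - b) else 0) := by
          rw [← sum_sub_distrib]
          apply sum_congr rfl
          intro b _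
          split_ifs <;> ring
        rw [h5, mul_sub, ← h3]
        ring

/-- inside a side only neighbours can be joined -/
theorem H_side (hH : RecH cor H) (q : ℝ) {a : ℕ} : ∀ m,
    (∀ c, cor c → ¬ (a < c ∧ c < a + m)) → H q a (m + 1) = (1 + q) ^ m := by
  classical
  intro m
  induction m with
  | zero =>
      intro _
      rw [hH.2]
      simp [hH.1]
  | succ m ih =>
      intro hc
      rw [hH.2, sum_range_succ]
      have hz : ∑ j ∈ range m, (if valid cor (a + j) (a + (m + 1)) then
          H q a (j + 1) * H q (a + j + 1) (m + 1 - 1 - j) else 0) = 0 := by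
        apply sum_eq_zero
        intro j hj
        rw [mem_range] at hj
        rw [if_neg]
        rintro (h | ⟨c, h1, h2, h3⟩)
        · omega
        · exact hc c h1 ⟨by omega, by omega⟩
      have hv : valid cor (a + m) (a + (m + 1)) := Or.inl (by ring)
      rw [hz, if_pos hv, show m + 1 - 1 - m = 0 by omega, hH.1,
        ih (fun c h1 h2 => hc c h1 ⟨h2.1, by omega⟩)]
      ring

/-- the recursion of `Z` along a side starting at the corner `t` -/
theorem Z_side (hH : RecH cor H) (hZ : RecZ cor H Z) (q : ℝ) {t n : ℕ} (ht : t < n)
    (hcor : t = 0 ∨ cor t) (hno : ∀ c, cor c → ¬ (t < c ∧ c < n)) :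
    Z q n = q * (H q 0 n - ∑ b ∈ (range (n - 1)).filter (fun b => t ≤ b),
      (1 + q) ^ (n - 2 - b) * Z q b) := by
  classical
  obtain ⟨m, rfl⟩ : ∃ m, n = m + 1 := ⟨n - 1, by omega⟩
  rw [hZ.2, H_eq_sum hH hZ q (m + 1) (by omega)]
  congr 1
  have h1 : ∀ b ∈ range (m + 1), (if valid cor b (m + 1) then Z q b * H q (b + 1) (m - b) else 0) =
      Z q b * H q (b + 1) (m - b) -
        (if b < m ∧ t ≤ b then (1 + q) ^ (m + 1 - 2 - b) * Z q b else 0) := by
    intro b hb
    rw [mem_range] at hb
    by_cases hbm : b = m
    · subst hbm
      have hv : valid cor b (b + 1) := Or.inl rfl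
      rw [if_pos hv, if_neg (by omega), sub_zero]
    · by_cases htb : t ≤ b
      · rw [if_neg, if_pos ⟨by omega, htb⟩]
        · obtain ⟨i, hi⟩ : ∃ i, m - b = i + 1 := ⟨m - b - 1, by omega⟩
          rw [hi, H_side hH q i, show m + 1 - 2 - b = i by omega]
          · ring
          · intro c hc h
            exact hno c hc ⟨by omega, by omega⟩
        · rintro (h | ⟨c, h1, h2, h3⟩)
          · omega
          · exact hno c h1 ⟨by omega, h3⟩
      · rw [if_neg (by omega : ¬ (b < m ∧ t ≤ b)), sub_zero, if_pos]
        right
        rcases hcor with h0 | h0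
        · omega
        · exact ⟨t, h0, by omega, by omega⟩
  rw [sum_congr rfl h1, sum_sub_distrib]
  congr 1
  rw [← sum_filter]
  apply sum_congr
  · ext b
    simp only [mem_filter, mem_range]
    omega
  · intro b _
    rfl

/-- the defect -/
noncomputable def defect (Z : ℝ → ℕ → ℝ) (n : ℕ) : ℝ := Z 2 n - 2 ^ (n + 1) * Z (1 / 2) n

theorem defect_side (hH : RecH cor H) (hZ : RecZ cor H Z) {t n : ℕ} (ht : t < n)
    (hcor : t = 0 ∨ cor t) (hno : ∀ c, cor c → ¬ (t < c ∧ c < n)) :
    defect Z n = - 2 * ∑ b ∈ (range (n - 1)).filter (fun b => t ≤ b),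
      3 ^ (n - 2 - b) * defect Z b := by
  unfold defect
  rw [Z_side hH hZ 2 ht hcor hno, Z_side hH hZ (1 / 2) ht hcor hno]
  obtain ⟨m, rfl⟩ : ∃ m, n = m + 1 := ⟨n - 1, by omega⟩
  rw [H_sym hH m 0]
  have h1 : ∑ b ∈ (range (m + 1 - 1)).filter (fun b => t ≤ b),
      (3 : ℝ) ^ (m + 1 - 2 - b) * (Z 2 b - 2 ^ (b + 1) * Z (1 / 2) b) =
      ∑ b ∈ (range (m + 1 - 1)).filter (fun b => t ≤ b), (1 + 2 : ℝ) ^ (m + 1 - 2 - b) * Z 2 b -
      2 ^ m * ∑ b ∈ (range (m + 1 - 1)).filter (fun b => t ≤ b),
        (1 + 1 / 2 : ℝ) ^ (m + 1 - 2 - b) * Z (1 / 2) b := by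
    rw [mul_sum, ← sum_sub_distrib]
    apply sum_congr rfl
    intro b hb
    rw [mem_filter, mem_range] at hb
    have e1 : (2 : ℝ) ^ m * (1 + 1 / 2) ^ (m + 1 - 2 - b) = 3 ^ (m + 1 - 2 - b) * 2 ^ (b + 1) := by
      have : m = (m + 1 - 2 - b) + (b + 1) := by omega
      conv_lhs => rw [this, pow_add]
      rw [show m + 1 - 2 - b + (b + 1) + 1 - 2 - b = m + 1 - 2 - b by omega]
      rw [show (1 + 1 / 2 : ℝ) = 3 / 2 by norm_num, div_pow]
      field_simp
    rw [show (1 + 2 : ℝ) = 3 by norm_num, ← mul_assoc (2 ^ m : ℝ), e1]
    ring
  rw [h1]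
  rw [pow_succ, pow_succ]
  ring

theorem defect_step (hH : RecH cor H) (hZ : RecZ cor H Z) {t : ℕ}
    (hcor : t = 0 ∨ cor t) : ∀ N, 1 ≤ N → (∀ c, cor c → ¬ (t < c ∧ c < t + N)) →
    defect Z (t + N) = -2 * (2 ^ (N - 1) - 1) * defect Z t := by
  intro N
  induction N using Nat.strong_induction_on with
  | _ N ih =>
      intro hN hno
      rcases Nat.lt_or_ge N 2 with h | h
      · have : N = 1 := by omega
        subst this
        rw [defect_side hH hZ (by omega) hcor hno]
        have : (range (t + 1 - 1)).filter (fun b => t ≤ b) = ∅ := by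
          ext b
          simp only [mem_filter, mem_range]
          simp
        rw [this]
        simp
      · rcases Nat.lt_or_ge N 3 with h3 | h3
        · have : N = 2 := by omega
          subst this
          rw [defect_side hH hZ (by omega) hcor hno]
          have : (range (t + 2 - 1)).filter (fun b => t ≤ b) = {t} := by
            ext b
            simp only [mem_filter, mem_range, mem_singleton]
            omega
          rw [this, sum_singleton, show t + 2 - 2 - t = 0 by omega]
          norm_num
        · obtain ⟨K, rfl⟩ : ∃ K, N = K + 2 := ⟨N - 2, by omega⟩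
          have i1 := ih (K + 1) (by omega) (by omega) (fun c h1 h2 => hno c h1 ⟨h2.1, by omega⟩)
          have i0 := ih K (by omega) (by omega) (fun c h1 h2 => hno c h1 ⟨h2.1, by omega⟩)
          have e1 := defect_side hH hZ (n := t + (K + 1)) (by omega) hcor
            (fun c h1 h2 => hno c h1 ⟨h2.1, by omega⟩)
          have e2 := defect_side hH hZ (n := t + (K + 2)) (by omega) hcor hno
          have hr : (range (t + (K + 2) - 1)).filter (fun b => t ≤ b) =
              insert (t + K) ((range (t + (K + 1) - 1)).filter (fun b => t ≤ b)) := by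
            ext b
            simp only [mem_filter, mem_range, mem_insert]
            omega
          rw [hr, sum_insert (by simp), show t + (K + 2) - 2 - (t + K) = 0 by omega, pow_zero,
            one_mul] at e2
          have hs : ∑ b ∈ (range (t + (K + 1) - 1)).filter (fun b => t ≤ b),
              (3 : ℝ) ^ (t + (K + 2) - 2 - b) * defect Z b =
              3 * ∑ b ∈ (range (t + (K + 1) - 1)).filter (fun b => t ≤ b),
              (3 : ℝ) ^ (t + (K + 1) - 2 - b) * defect Z b := by
            rw [mul_sum]
            apply sum_congr rfl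
            intro b hb
            rw [mem_filter, mem_range] at hb
            rw [show t + (K + 2) - 2 - b = (t + (K + 1) - 2 - b) + 1 by omega, pow_succ]
            ring
          rw [hs] at e2
          have e3 : defect Z (t + (K + 2)) = 3 * defect Z (t + (K + 1)) - 2 * defect Z (t + K) := by
            rw [e2]
            rw [e1]
            ring
          rw [e3, i1, i0]
          obtain ⟨L, rfl⟩ : ∃ L, K = L + 1 := ⟨K - 1, by omega⟩
          rw [show L + 1 + 1 - 1 = L + 1 by omega, show L + 1 + 2 - 1 = L + 2 by omega,
            show L + 1 - 1 = L by omega, pow_succ, pow_succ]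
          ring

/-- the defect does not vanish at the corners -/
theorem defect_ne_zero (hH : RecH cor H) (hZ : RecZ cor H Z) (h0 : cor 0)
    (hblank : ∀ c, ¬ (cor c ∧ cor (c + 1))) : ∀ c, cor c → defect Z c ≠ 0 := by
  classical
  intro c
  induction c using Nat.strong_induction_on with
  | _ c ih =>
      intro hc
      rcases Nat.eq_zero_or_pos c with rfl | hpos
      · unfold defect
        rw [hZ.1, hZ.1]
        norm_num
      · -- previous corner
        have hex : ∃ k, cor (c - 1 - k) := ⟨c - 1, by simpa using h0⟩
        have hk := Nat.find_spec hex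
        have hmin : ∀ k, k < Nat.find hex → ¬ cor (c - 1 - k) := fun k hk => Nat.find_min hex hk
        have hkle : Nat.find hex ≤ c - 1 := Nat.find_min' hex (by simpa using h0)
        set t := c - 1 - Nat.find hex with ht
        have htc : t < c := by omega
        have hno : ∀ d, cor d → ¬ (t < d ∧ d < t + (c - t)) := by
          intro d hd h
          apply hmin (c - 1 - d) (by omega)
          rw [show c - 1 - (c - 1 - d) = d by omega]
          exact hd
        have h1 := defect_step hH hZ (Or.inr hk) (c - t) (by omega) hno
        rw [show t + (c - t) = c by omega] at h1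
        rw [h1]
        have h2 : 2 ≤ c - t := by
          by_contra hcon
          have : c = t + 1 := by omega
          exact hblank t ⟨hk, this ▸ hc⟩
        have h3 := ih t htc hk
        have h4 : (2 : ℝ) ^ (c - t - 1) - 1 ≠ 0 := by
          have : (2 : ℝ) ^ 1 ≤ 2 ^ (c - t - 1) := pow_le_pow_right₀ (by norm_num) (by omega)
          intro h5
          linarith
        exact mul_ne_zero (mul_ne_zero (by norm_num) h4) h3

end

end Pool.Agent.R171.NC
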