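import Mathlib
import Pool.Agent.R171.NC.Numeric

/-!
# Noncrossing partitions encoded by the map to the previous element of the block
-/

namespace Pool.Agent.R171.NC

open Finset

/-- `p` encodes a noncrossing partition of `a, …, a + m - 1` -/
def Good (cor : ℕ → Prop) (a m : ℕ) (p : ℕ → ℕ) : Prop :=
  (∀ x, (x < a ∨ a + m ≤ x) → p x = x) ∧
  ∀ x, a ≤ x → x < a + m → a ≤ p x ∧ p x ≤ x ∧ (∀ z, p x < z → z < x → p x < p z) ∧
    (p x < x → valid cor (p x) x)

theorem Good.le {cor : ℕ → Prop} {a m : ℕ} {p : ℕ → ℕ} (h : Good cor a m p) (x : ℕ) : p x ≤ x := by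
  by_cases hx : a ≤ x ∧ x < a + m
  · exact (h.2 x hx.1 hx.2).2.1
  · rw [h.1 x (by omega)]

theorem good_finite (cor : ℕ → Prop) (a m : ℕ) : {p | Good cor a m p}.Finite := by
  let N := a + m
  let φ : {p | Good cor a m p} → (Fin N → Fin (N + 1)) := fun p x =>
    ⟨p.1 x.1, by
      have h1 : p.1 x.1 ≤ x.1 := Good.le p.2 x.1
      have h2 := x.2
      omega⟩
  have hφ : Function.Injective φ := by
    intro p p' h
    apply Subtype.ext
    funext x
    by_cases hx : x < N
    · have := congrFun h ⟨x, hx⟩
      exact congrArg Fin.val this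
    · have g1 : Good cor a m p.1 := p.2
      have g2 : Good cor a m p'.1 := p'.2
      rw [g1.1 x (Or.inr (by omega)), g2.1 x (Or.inr (by omega))]
  have := Finite.of_injective φ hφ
  exact Set.toFinite _

/-- the finite set of the codes -/
noncomputable def SF (cor : ℕ → Prop) (a m : ℕ) : Finset (ℕ → ℕ) := (good_finite cor a m).toFinset

theorem mem_SF {cor : ℕ → Prop} {a m : ℕ} {p : ℕ → ℕ} : p ∈ SF cor a m ↔ Good cor a m p := by
  simp [SF]

/-- the weight -/
noncomputable def wt (q : ℝ) (a b : ℕ) (p : ℕ → ℕ) : ℝ :=
  ∏ x ∈ Ico a b, if p x = x then 1 else q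

/-- the generating function -/
noncomputable def HH (cor : ℕ → Prop) (q : ℝ) (a m : ℕ) : ℝ := ∑ p ∈ SF cor a m, wt q a (a + m) p

/-- follow `p` to the first element of the block -/
def root (p : ℕ → ℕ) : ℕ → ℕ := fun x => if _h : p x < x then root p (p x) else x
  termination_by x => x

theorem root_lt {p : ℕ → ℕ} {x : ℕ} (h : p x < x) : root p x = root p (p x) := by
  rw [root, dif_pos h]

theorem root_ge {p : ℕ → ℕ} {x : ℕ} (h : ¬ p x < x) : root p x = x := by
  rw [root, dif_neg h]

theorem root_congr {p p' : ℕ → ℕ} : ∀ b, (∀ x, x ≤ b → p x = p' x) → root p b = root p' b := by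
  intro b
  induction b using Nat.strong_induction_on with
  | _ b ih =>
      intro h
      by_cases hb : p b < b
      · have hb' : p' b < b := by rw [← h b le_rfl]; exact hb
        rw [root_lt hb, root_lt hb', ← h b le_rfl]
        exact ih (p b) hb (fun x hx => h x (by omega))
      · have hb' : ¬ p' b < b := by rw [← h b le_rfl]; exact hb
        rw [root_ge hb, root_ge hb']

/-- split a code at the previous element `y` of the last element -/
theorem fiber_sum (cor : ℕ → Prop) (q : ℝ) (a m j : ℕ) (hj : j < m) (Q : (ℕ → ℕ) → Prop)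
    [DecidablePred Q] (hQ : ∀ p p' : ℕ → ℕ, (∀ x, x ≤ a + j → p x = p' x) → (Q p ↔ Q p'))
    (hv : valid cor (a + j) (a + m)) :
    ∑ p ∈ (SF cor a (m + 1)).filter (fun p => p (a + m) = a + j ∧ Q p), wt q a (a + (m + 1)) p =
      q * ((∑ p ∈ (SF cor a (j + 1)).filter Q, wt q a (a + (j + 1)) p) *
        HH cor q (a + j + 1) (m - 1 - j)) := by
  classical
  unfold HH
  rw [sum_mul_sum, ← sum_product', mul_sum]
  refine sum_bij' (fun p _ => ((fun x => if x ≤ a + j then p x else x),
      (fun x => if a + j < x ∧ x < a + m then p x else x)))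
    (fun w _ => fun x => if x = a + m then a + j else if x ≤ a + j then w.1 x else w.2 x)
    ?_ ?_ ?_ ?_ ?_
  · intro p hp
    rw [mem_filter, mem_SF] at hp
    obtain ⟨hg, hpe, hQp⟩ := hp
    rw [mem_product, mem_filter, mem_SF, mem_SF]
    refine ⟨⟨⟨?_, ?_⟩, ?_⟩, ?_, ?_⟩
    · intro x hx
      simp only
      split_ifs with h
      · exact hg.1 x (by omega)
      · rfl
    · intro x h1 h2
      simp only
      rw [if_pos (by omega)]
      obtain ⟨g1, g2, g3, g4⟩ := hg.2 x h1 (by omega)
      refine ⟨g1, g2, fun z hz1 hz2 => ?_, g4⟩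
      rw [if_pos (by omega)]
      exact g3 z hz1 hz2
    · refine (hQ _ _ ?_).1 hQp
      intro x hx
      simp only
      rw [if_pos hx]
    · intro x hx
      simp only
      rw [if_neg (by omega)]
    · intro x h1 h2
      simp only
      rw [if_pos (by omega)]
      obtain ⟨g1, g2, g3, g4⟩ := hg.2 x (by omega) (by omega)
      obtain ⟨e1, e2, e3, e4⟩ := hg.2 (a + m) (by omega) (by omega)
      rw [hpe] at e3
      have := e3 x (by omega) (by omega)
      refine ⟨by omega, g2, fun z hz1 hz2 => ?_, g4⟩
      rw [if_pos (by omega)]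
      exact g3 z hz1 hz2
  · rintro ⟨p1, p2⟩ hw
    rw [mem_product, mem_filter, mem_SF, mem_SF] at hw
    obtain ⟨⟨g1, hQ1⟩, g2⟩ := hw
    simp only at g1 hQ1 g2
    rw [mem_filter, mem_SF]
    refine ⟨⟨?_, ?_⟩, ?_, ?_⟩
    · intro x hx
      simp only
      rw [if_neg (by omega)]
      split_ifs with h
      · exact g1.1 x (by omega)
      · exact g2.1 x (by omega)
    · intro x h1 h2
      simp only
      by_cases hxm : x = a + m
      · rw [if_pos hxm]
        refine ⟨by omega, by omega, fun z hz1 hz2 => ?_, fun _ => by rw [hxm]; exact hv⟩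
        rw [if_neg (by omega), if_neg (by omega)]
        have := (g2.2 z (by omega) (by omega)).1
        omega
      · rw [if_neg hxm]
        by_cases hxj : x ≤ a + j
        · rw [if_pos hxj]
          obtain ⟨f1, f2, f3, f4⟩ := g1.2 x h1 (by omega)
          refine ⟨f1, f2, fun z hz1 hz2 => ?_, f4⟩
          rw [if_neg (by omega), if_pos (by omega)]
          exact f3 z hz1 hz2
        · rw [if_neg hxj]
          obtain ⟨f1, f2, f3, f4⟩ := g2.2 x (by omega) (by omega)
          refine ⟨by omega, f2, fun z hz1 hz2 => ?_, f4⟩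
          rw [if_neg (by omega), if_neg (by omega)]
          exact f3 z hz1 hz2
    · simp
    · refine (hQ _ _ ?_).2 hQ1
      intro x hx
      simp only
      rw [if_neg (by omega), if_pos hx]
  · intro p hp
    rw [mem_filter, mem_SF] at hp
    obtain ⟨hg, hpe, hQp⟩ := hp
    funext x
    simp only
    by_cases hxm : x = a + m
    · rw [if_pos hxm, hxm, hpe]
    · rw [if_neg hxm]
      by_cases hxj : x ≤ a + j
      · rw [if_pos hxj, if_pos hxj]
      · rw [if_neg hxj]
        by_cases hx2 : x < a + m
        · rw [if_pos (by omega)]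
        · rw [if_neg (by omega), hg.1 x (by omega)]
  · rintro ⟨p1, p2⟩ hw
    rw [mem_product, mem_filter, mem_SF, mem_SF] at hw
    obtain ⟨⟨g1, hQ1⟩, g2⟩ := hw
    simp only at g1 hQ1 g2
    ext x
    · simp only
      by_cases hxj : x ≤ a + j
      · rw [if_pos hxj, if_neg (by omega), if_pos hxj]
      · rw [if_neg hxj, g1.1 x (by omega)]
    · simp only
      by_cases hxj : a + j < x ∧ x < a + m
      · rw [if_pos hxj, if_neg (by omega), if_neg (by omega)]
      · rw [if_neg hxj, g2.1 x (by omega)]
  · intro p hp
    rw [mem_filter, mem_SF] at hp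
    obtain ⟨hg, hpe, hQp⟩ := hp
    unfold wt
    rw [show a + (m + 1) = a + m + 1 by ring, prod_Ico_succ_top (by omega), if_neg (by omega),
      mul_comm]
    congr 1
    rw [← prod_Ico_consecutive _ (by omega : a ≤ a + (j + 1)) (by omega : a + (j + 1) ≤ a + m)]
    simp only
    congr 1
    · apply prod_congr rfl
      intro x hx
      rw [mem_Ico] at hx
      simp only [if_pos (show x ≤ a + j by omega)]
    · rw [show a + j + 1 + (m - 1 - j) = a + m by omega, show a + (j + 1) = a + j + 1 by ring]
      apply prod_congr rfl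
      intro x hx
      rw [mem_Ico] at hx
      simp only [if_pos (show a + j < x ∧ x < a + m by omega)]

theorem SF_zero (cor : ℕ → Prop) (a : ℕ) : SF cor a 0 = {fun x => x} := by
  ext p
  rw [mem_SF, mem_singleton]
  constructor
  · intro h
    funext x
    exact h.1 x (by omega)
  · rintro rfl
    exact ⟨fun _ _ => rfl, fun x h1 h2 => by omega⟩

/-- the last element is the first of its block -/
theorem fiber_top (cor : ℕ → Prop) (q : ℝ) (a m : ℕ) :
    ∑ p ∈ (SF cor a (m + 1)).filter (fun p => p (a + m) = a + m), wt q a (a + (m + 1)) p =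
      HH cor q a m := by
  classical
  unfold HH
  have : (SF cor a (m + 1)).filter (fun p => p (a + m) = a + m) = SF cor a m := by
    ext p
    rw [mem_filter, mem_SF, mem_SF]
    constructor
    · rintro ⟨hg, hp⟩
      refine ⟨fun x hx => ?_, fun x h1 h2 => hg.2 x h1 (by omega)⟩
      by_cases hxm : x = a + m
      · rw [hxm, hp]
      · exact hg.1 x (by omega)
    · intro hg
      refine ⟨⟨fun x hx => hg.1 x (by omega), fun x h1 h2 => ?_⟩, hg.1 _ (by omega)⟩
      by_cases hxm : x = a + m
      · have hp : p x = x := hg.1 x (by omega)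
        rw [hp]
        exact ⟨h1, le_rfl, fun z h3 h4 => by omega, fun h => absurd h (by omega)⟩
      · exact hg.2 x h1 (by omega)
  rw [this]
  apply sum_congr rfl
  intro p hp
  rw [mem_SF] at hp
  unfold wt
  rw [show a + (m + 1) = a + m + 1 by ring, prod_Ico_succ_top (by omega),
    if_pos (hp.1 _ (by omega)), mul_one]

theorem recH (cor : ℕ → Prop) : RecH cor (HH cor) := by
  classical
  refine ⟨?_, ?_⟩
  · intro q a
    unfold HH
    rw [SF_zero, sum_singleton]
    simp [wt]
  · intro q a m
    have h1 : HH cor q a (m + 1) = ∑ y ∈ range (m + 1),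
        ∑ p ∈ (SF cor a (m + 1)).filter (fun p => p (a + m) - a = y), wt q a (a + (m + 1)) p := by
      unfold HH
      rw [sum_fiberwise_of_maps_to]
      intro p hp
      rw [mem_SF] at hp
      rw [mem_range]
      have := hp.le (a + m)
      omega
    rw [h1, sum_range_succ, add_comm]
    congr 1
    · rw [← fiber_top cor q a m]
      apply sum_congr _ (fun _ _ => rfl)
      ext p
      rw [mem_filter, mem_filter, mem_SF]
      constructor
      · rintro ⟨hg, hp⟩
        refine ⟨hg, ?_⟩
        have := (hg.2 (a + m) (by omega) (by omega)).1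
        omega
      · rintro ⟨hg, hp⟩
        exact ⟨hg, by omega⟩
    · rw [mul_sum]
      apply sum_congr rfl
      intro j hj
      rw [mem_range] at hj
      have h2 : (SF cor a (m + 1)).filter (fun p => p (a + m) - a = j) =
          (SF cor a (m + 1)).filter (fun p => p (a + m) = a + j ∧ True) := by
        ext p
        rw [mem_filter, mem_filter, mem_SF]
        constructor
        · rintro ⟨hg, hp⟩
          refine ⟨hg, ?_, trivial⟩
          have := (hg.2 (a + m) (by omega) (by omega)).1
          omega
        · rintro ⟨hg, hp, _⟩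
          exact ⟨hg, by omega⟩
      rw [h2]
      split_ifs with hv
      · rw [fiber_sum cor q a m j hj (fun _ => True) (fun _ _ _ => Iff.rfl) hv]
        rw [filter_true_of_mem (fun _ _ => trivial)]
        rfl
      · rw [mul_zero]
        apply sum_eq_zero
        intro p hp
        rw [mem_filter, mem_SF] at hp
        obtain ⟨hg, hp1, _⟩ := hp
        exfalso
        apply hv
        have := (hg.2 (a + m) (by omega) (by omega)).2.2.2
        rw [hp1] at this
        exact this (by omega)

open Classical in
/-- the generating function of the codes on `0, …, n` with `0` and `n` in the same block -/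
noncomputable def ZZ (cor : ℕ → Prop) (q : ℝ) (n : ℕ) : ℝ :=
  ∑ p ∈ (SF cor 0 (n + 1)).filter (fun p => root p n = 0), wt q 0 (n + 1) p

theorem recZ (cor : ℕ → Prop) : RecZ cor (HH cor) (ZZ cor) := by
  classical
  refine ⟨?_, ?_⟩
  · intro q
    unfold ZZ
    have h1 : SF cor 0 (0 + 1) = {fun x => x} := by
      ext p
      rw [mem_SF, mem_singleton]
      constructor
      · intro h
        funext x
        by_cases hx : x = 0
        · have := h.le x
          omega
        · exact h.1 x (by omega)
      · rintro rfl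
        exact ⟨fun _ _ => rfl, fun x h1 h2 => ⟨h1, le_rfl, fun z h3 h4 => by omega,
          fun h => absurd h (by omega)⟩⟩
    have h2 : root (fun x => x) 0 = 0 := root_ge (by simp)
    rw [h1, filter_singleton, if_pos h2, sum_singleton]
    simp [wt]
  · intro q n
    have h1 : ZZ cor q (n + 1) = ∑ b ∈ range (n + 1),
        ∑ p ∈ ((SF cor 0 (n + 1 + 1)).filter (fun p => root p (n + 1) = 0)).filter
          (fun p => p (n + 1) = b), wt q 0 (n + 1 + 1) p := by
      unfold ZZ
      rw [sum_fiberwise_of_maps_to]
      intro p hp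
      rw [mem_filter, mem_SF] at hp
      rw [mem_range]
      have h2 := hp.1.le (n + 1)
      by_contra hcon
      have h3 := hp.2
      rw [root_ge (by omega)] at h3
      omega
    rw [h1, mul_sum]
    apply sum_congr rfl
    intro b hb
    rw [mem_range] at hb
    have h2 : ((SF cor 0 (n + 1 + 1)).filter (fun p => root p (n + 1) = 0)).filter
          (fun p => p (n + 1) = b) =
        (SF cor 0 (n + 1 + 1)).filter (fun p => p (0 + (n + 1)) = 0 + b ∧ root p b = 0) := by
      ext p
      rw [mem_filter, mem_filter, mem_filter, zero_add, zero_add]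
      constructor
      · rintro ⟨⟨h3, h4⟩, h5⟩
        refine ⟨h3, h5, ?_⟩
        rw [root_lt (by omega), h5] at h4
        exact h4
      · rintro ⟨h3, h4, h5⟩
        refine ⟨⟨h3, ?_⟩, h4⟩
        rw [root_lt (by omega), h4]
        exact h5
    rw [h2]
    split_ifs with hv
    · have h3 := fiber_sum cor q 0 (n + 1) b hb (fun p => root p b = 0) (by
        intro p p' h
        rw [root_congr b (fun x hx => h x (by omega))]) (by simpa using hv)
      simp only [zero_add] at h3 ⊢
      rw [h3, show n + 1 - 1 - b = n - b by omega]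
      rfl
    · rw [mul_zero]
      apply sum_eq_zero
      intro p hp
      rw [mem_filter, mem_SF, zero_add, zero_add] at hp
      obtain ⟨hg, hp1, _⟩ := hp
      exfalso
      apply hv
      have := (hg.2 (n + 1) (by omega) (by omega)).2.2.2
      rw [hp1] at this
      exact this (by omega)

end Pool.Agent.R171.NC
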