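import Mathlib
import Pool.Agent.R171.NC.Comb

/-!
# From codes to set partitions
-/

namespace Pool.Agent.R171.NC

open Finset

/-- the combinatorial form of a noncrossing partition of a hull configuration -/
def CombNC {P : Type*} (cor : ℕ → Prop) (n : ℕ) (ps : ℕ → P) (r : Setoid P) : Prop :=
  (∀ a b c d, a < b → b < c → c < d → d ≤ n → r (ps a) (ps c) → r (ps b) (ps d) →
    r (ps a) (ps b)) ∧
  ∀ x y z, x < y → y < z → z ≤ n → (∀ c, cor c → ¬ (x < c ∧ c < z)) → r (ps x) (ps z) →
    r (ps x) (ps y)

section code

variable {cor : ℕ → Prop} {n : ℕ} {p : ℕ → ℕ}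

theorem root_le (p : ℕ → ℕ) : ∀ x, root p x ≤ x := by
  intro x
  induction x using Nat.strong_induction_on with
  | _ x ih =>
      by_cases h : p x < x
      · rw [root_lt h]
        exact (ih _ h).trans h.le
      · rw [root_ge h]

theorem root_fix (p : ℕ → ℕ) : ∀ x, ¬ p (root p x) < root p x := by
  intro x
  induction x using Nat.strong_induction_on with
  | _ x ih =>
      by_cases h : p x < x
      · rw [root_lt h]
        exact ih _ h
      · rw [root_ge h]
        exact h

theorem root_root (p : ℕ → ℕ) (x : ℕ) : root p (root p x) = root p x := root_ge (root_fix p x)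

/-- the elements between `p x` and `x` have larger roots -/
theorem root_between (hg : Good cor 0 (n + 1) p) {x : ℕ} (hx : x ≤ n) :
    ∀ z, p x < z → z < x → p x < root p z := by
  intro z
  induction z using Nat.strong_induction_on with
  | _ z ih =>
      intro h1 h2
      have h3 := (hg.2 x (by omega) (by omega)).2.2.1 z h1 h2
      by_cases h : p z < z
      · rw [root_lt h]
        exact ih _ h h3 (by omega)
      · rw [root_ge h]
        exact h1

theorem code_N1 (hg : Good cor 0 (n + 1) p) {a b c d : ℕ} (hab : a < b) (hbc : b < c)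
    (hac : root p a = root p c) :
    c < d → d ≤ n → root p b = root p d → root p a = root p b := by
  induction d using Nat.strong_induction_on with
  | _ d ih =>
      intro hcd hd hbd
      by_cases h : p d < d
      · rw [root_lt h] at hbd
        rcases lt_trichotomy c (p d) with h1 | h1 | h1
        · exact ih _ h h1 (by omega) hbd
        · rw [hac, h1, hbd]
        · exfalso
          have h2 := root_between hg hd c h1 hcd
          have h3 := root_le p a
          have h4 := root_between hg hd b (by omega) (by omega)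
          have h5 := root_le p (p d)
          omega
      · rw [root_ge h] at hbd
        have := root_le p b
        omega

theorem code_N2 (hg : Good cor 0 (n + 1) p) {x y : ℕ} (hxy : x < y) :
    ∀ z, y < z → z ≤ n → (∀ c, cor c → ¬ (x < c ∧ c < z)) → root p x = root p z →
      root p x = root p y := by
  intro z
  induction z using Nat.strong_induction_on with
  | _ z ih =>
      intro h1 h2 h3 h4
      have hpz : p z < z := by
        by_contra h
        rw [root_ge h] at h4
        have := root_le p x
        omega
      have hpx : x ≤ p z := by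
        by_contra h
        have h5 := root_between hg h2 x (by omega) (by omega)
        rw [h4, root_lt hpz] at h5
        have := root_le p (p z)
        omega
      have hp1 : p z + 1 = z := by
        rcases (hg.2 z (by omega) (by omega)).2.2.2 hpz with h | ⟨c, h5, h6, h7⟩
        · exact h
        · exact absurd ⟨by omega, h7⟩ (h3 c h5)
      rw [root_lt hpz] at h4
      by_cases hyz : y = p z
      · rw [hyz]
        exact h4
      · exact ih (p z) hpz (by omega) (by omega) (fun c hc h => h3 c hc ⟨h.1, by omega⟩) h4

end code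

section part

variable {P : Type*} {cor : ℕ → Prop} {n : ℕ} {ps : ℕ → P}

open Classical in
/-- the code of a partition -/
noncomputable def prevf (n : ℕ) (ps : ℕ → P) (r : Setoid P) (x : ℕ) : ℕ :=
  if x ≤ n ∧ ∃ y, y < x ∧ r (ps y) (ps x) then
    Nat.findGreatest (fun y => y < x ∧ r (ps y) (ps x)) x else x

theorem prevf_none {r : Setoid P} {x : ℕ} (h : ¬ (x ≤ n ∧ ∃ y, y < x ∧ r (ps y) (ps x))) :
    prevf n ps r x = x := by
  unfold prevf
  rw [if_neg h]

theorem prevf_some {r : Setoid P} {x : ℕ} (h : x ≤ n ∧ ∃ y, y < x ∧ r (ps y) (ps x)) :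
    prevf n ps r x < x ∧ r (ps (prevf n ps r x)) (ps x) ∧
      ∀ z, prevf n ps r x < z → z < x → ¬ r (ps z) (ps x) := by
  classical
  obtain ⟨hx, y, hy1, hy2⟩ := h
  have e : prevf n ps r x = Nat.findGreatest (fun y => y < x ∧ r (ps y) (ps x)) x := by
    unfold prevf
    rw [if_pos ⟨hx, y, hy1, hy2⟩]
  have h1 := Nat.findGreatest_spec (P := fun y => y < x ∧ r (ps y) (ps x)) hy1.le ⟨hy1, hy2⟩
  rw [← e] at h1
  refine ⟨h1.1, h1.2, fun z h2 h3 h4 => ?_⟩
  have h5 := Nat.le_findGreatest (P := fun y => y < x ∧ r (ps y) (ps x)) h3.le ⟨h3, h4⟩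
  rw [← e] at h5
  omega

theorem prevf_le (r : Setoid P) (x : ℕ) : prevf n ps r x ≤ x := by
  by_cases h : x ≤ n ∧ ∃ y, y < x ∧ r (ps y) (ps x)
  · exact (prevf_some h).1.le
  · rw [prevf_none h]

theorem prevf_rel (r : Setoid P) (x : ℕ) : r (ps (prevf n ps r x)) (ps x) := by
  by_cases h : x ≤ n ∧ ∃ y, y < x ∧ r (ps y) (ps x)
  · exact (prevf_some h).2.1
  · rw [prevf_none h]

theorem root_rel (r : Setoid P) : ∀ x, r (ps (root (prevf n ps r) x)) (ps x) := by
  intro x
  induction x using Nat.strong_induction_on with
  | _ x ih =>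
      by_cases h : prevf n ps r x < x
      · rw [root_lt h]
        exact r.trans' (ih _ h) (prevf_rel r x)
      · rw [root_ge h]

theorem root_min (r : Setoid P) {x y : ℕ} (hx : x ≤ n) (h : r (ps y) (ps x)) :
    root (prevf n ps r) x ≤ y := by
  by_contra hcon
  push Not at hcon
  have h1 := root_fix (prevf n ps r) x
  have h2 := root_le (prevf n ps r) x
  have h3 : root (prevf n ps r) x ≤ n ∧ ∃ y, y < root (prevf n ps r) x ∧
      r (ps y) (ps (root (prevf n ps r) x)) :=
    ⟨by omega, y, hcon, r.trans' h (r.symm' (root_rel r x))⟩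
  exact h1 (prevf_some h3).1

theorem root_eq_iff (r : Setoid P) {x y : ℕ} (hx : x ≤ n) (hy : y ≤ n) :
    root (prevf n ps r) x = root (prevf n ps r) y ↔ r (ps x) (ps y) := by
  constructor
  · intro h
    have h1 := root_rel (n := n) (ps := ps) r x
    have h2 := root_rel (n := n) (ps := ps) r y
    rw [h] at h1
    exact r.trans' (r.symm' h1) h2
  · intro h
    apply le_antisymm
    · exact root_min r hx (r.trans' (root_rel r y) (r.symm' h))
    · exact root_min r hy (r.trans' (root_rel r x) h)

theorem prevf_good {r : Setoid P} (h : CombNC cor n ps r) : Good cor 0 (n + 1) (prevf n ps r) := by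
  refine ⟨fun x hx => prevf_none (by omega), fun x _ hx => ⟨Nat.zero_le _, prevf_le r x, ?_, ?_⟩⟩
  · intro z hz1 hz2
    by_cases hx' : x ≤ n ∧ ∃ y, y < x ∧ r (ps y) (ps x)
    · obtain ⟨h1, h2, h3⟩ := prevf_some hx'
      by_cases hz' : z ≤ n ∧ ∃ y, y < z ∧ r (ps y) (ps z)
      · obtain ⟨g1, g2, g3⟩ := prevf_some hz'
        rcases lt_trichotomy (prevf n ps r z) (prevf n ps r x) with hlt | heq | hgt
        · exfalso
          have h4 := h.1 (prevf n ps r z) (prevf n ps r x) z x hlt hz1 hz2 (by omega) g2 h2
          exact h3 z hz1 hz2 (r.trans' (r.symm' g2) (r.trans' h4 h2))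
        · exfalso
          rw [heq] at g2
          exact h3 z hz1 hz2 (r.trans' (r.symm' g2) h2)
        · exact hgt
      · rw [prevf_none hz']
        exact hz1
    · rw [prevf_none hx'] at hz1
      omega
  · intro hlt
    have hx' : x ≤ n ∧ ∃ y, y < x ∧ r (ps y) (ps x) := by
      by_contra hcon
      rw [prevf_none hcon] at hlt
      omega
    obtain ⟨h1, h2, h3⟩ := prevf_some hx'
    by_contra hcon
    unfold valid at hcon
    push Not at hcon
    obtain ⟨hc1, hc2⟩ := hcon
    have h4 := h.2 (prevf n ps r x) (prevf n ps r x + 1) x (by omega) (by omega) (by omega)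
      (fun c hc hcc => absurd hcc.2 (by have := hc2 c hc hcc.1; omega)) h2
    exact h3 (prevf n ps r x + 1) (by omega) (by omega) (r.trans' (r.symm' h4) h2)

/-- the partition of a code -/
def ofCode (ι : P → ℕ) (p : ℕ → ℕ) : Setoid P where
  r u v := root p (ι u) = root p (ι v)
  iseqv := ⟨fun _ => rfl, fun h => h.symm, fun h h' => h.trans h'⟩

variable {ι : P → ℕ}

/-- the data of a cyclic enumeration of `P` -/
structure Enum (n : ℕ) (ps : ℕ → P) (ι : P → ℕ) : Prop where
  pos : 1 ≤ n
  wrap : ps n = ps 0
  lt : ∀ u, ι u < n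
  left : ∀ u, ps (ι u) = u
  right : ∀ i, i < n → ι (ps i) = i

theorem root_idx (E : Enum n ps ι) {p : ℕ → ℕ} (h0 : root p n = 0) {x : ℕ} (hx : x ≤ n) :
    root p (ι (ps x)) = root p x := by
  rcases Nat.lt_or_ge x n with h | h
  · rw [E.right x h]
  · have : x = n := by omega
    subst this
    rw [E.wrap, E.right 0 (by have := E.pos; omega), h0]
    have := root_le p 0
    omega

theorem ofCode_comb (E : Enum n ps ι) {p : ℕ → ℕ} (hg : Good cor 0 (n + 1) p)
    (h0 : root p n = 0) : CombNC cor n ps (ofCode ι p) := by
  constructor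
  · intro a b c d hab hbc hcd hd h1 h2
    change root p (ι (ps a)) = root p (ι (ps c)) at h1
    change root p (ι (ps b)) = root p (ι (ps d)) at h2
    change root p (ι (ps a)) = root p (ι (ps b))
    rw [root_idx E h0 (by omega), root_idx E h0 (by omega)] at h1 h2 ⊢
    exact code_N1 hg hab hbc h1 hcd hd h2
  · intro x y z hxy hyz hz hc h1
    change root p (ι (ps x)) = root p (ι (ps z)) at h1
    change root p (ι (ps x)) = root p (ι (ps y))
    rw [root_idx E h0 (by omega), root_idx E h0 (by omega)] at h1 ⊢
    exact code_N2 hg hxy z hyz hz hc h1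

theorem prevf_ofCode (E : Enum n ps ι) {p : ℕ → ℕ} (hg : Good cor 0 (n + 1) p)
    (h0 : root p n = 0) : prevf n ps (ofCode ι p) = p := by
  funext x
  have hrel : ∀ y, y ≤ n → ∀ x, x ≤ n → ((ofCode ι p) (ps y) (ps x) ↔ root p y = root p x) := by
    intro y hy x hx
    change root p (ι (ps y)) = root p (ι (ps x)) ↔ _
    rw [root_idx E h0 hy, root_idx E h0 hx]
  by_cases hx : x ≤ n
  · by_cases hp : p x < x
    · have hex : x ≤ n ∧ ∃ y, y < x ∧ (ofCode ι p) (ps y) (ps x) :=
        ⟨hx, p x, hp, (hrel _ (by omega) _ hx).2 (root_lt hp).symm⟩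
      obtain ⟨h1, h2, h3⟩ := prevf_some hex
      rw [hrel _ (by omega) _ hx] at h2
      rcases lt_trichotomy (prevf n ps (ofCode ι p) x) (p x) with hlt | heq | hgt
      · exfalso
        exact h3 (p x) hlt hp ((hrel _ (by omega) _ hx).2 (root_lt hp).symm)
      · exact heq
      · exfalso
        have h4 := root_between hg hx _ hgt h1
        rw [h2, root_lt hp] at h4
        have := root_le p (p x)
        omega
    · have hpx : p x = x := by
        have := hg.le x
        omega
      rw [prevf_none, hpx]
      rintro ⟨_, y, hy, hyx⟩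
      rw [hrel _ (by omega) _ hx, root_ge hp] at hyx
      have := root_le p y
      omega
  · rw [prevf_none (by omega), hg.1 x (by omega)]

theorem ofCode_prevf (E : Enum n ps ι) (r : Setoid P) : ofCode ι (prevf n ps r) = r := by
  ext u v
  change root (prevf n ps r) (ι u) = root (prevf n ps r) (ι v) ↔ _
  rw [root_eq_iff r (E.lt u).le (E.lt v).le, E.left, E.left]

theorem root_n (E : Enum n ps ι) (r : Setoid P) : root (prevf n ps r) n = 0 := by
  have := root_min (n := n) (ps := ps) r le_rfl (y := 0) (by rw [E.wrap])
  omega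

/-- the number of blocks is the number of fixed points of the code -/
theorem card_blocks (E : Enum n ps ι) (r : Setoid P) :
    Nat.card (Quotient r) = ((range n).filter (fun x => prevf n ps r x = x)).card := by
  classical
  let F := (range n).filter (fun x => prevf n ps r x = x)
  have h1 : Nat.card {x // x ∈ F} = F.card := by
    rw [Nat.card_eq_fintype_card, Fintype.card_coe]
  rw [← h1]
  symm
  let f : {x // x ∈ F} → Quotient r := fun x => Quotient.mk r (ps x.1)
  apply Nat.card_eq_of_bijective f
  constructor
  · rintro ⟨x, hx⟩ ⟨y, hy⟩ h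
    rw [mem_filter, mem_range] at hx hy
    have h2 : r (ps x) (ps y) := Quotient.exact h
    have h3 := (root_eq_iff (n := n) (ps := ps) r hx.1.le hy.1.le).2 h2
    rw [root_ge (by omega), root_ge (by omega)] at h3
    exact Subtype.ext h3
  · intro c
    induction c using Quotient.inductionOn with
    | _ u =>
        have h2 := root_le (prevf n ps r) (ι u)
        have h3 := E.lt u
        have h4 := root_fix (prevf n ps r) (ι u)
        have h5 := prevf_le (n := n) (ps := ps) r (root (prevf n ps r) (ι u))
        refine ⟨⟨root (prevf n ps r) (ι u), ?_⟩, ?_⟩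
        · rw [mem_filter, mem_range]
          exact ⟨by omega, by omega⟩
        · apply Quotient.sound
          have h6 := root_rel (n := n) (ps := ps) r (ι u)
          rw [E.left] at h6
          exact h6

theorem wt_eq (E : Enum n ps ι) (r : Setoid P) (q : ℝ) :
    wt q 0 (n + 1) (prevf n ps r) = q * q ^ (n - Nat.card (Quotient r)) := by
  classical
  have hn := E.pos
  have h0 : prevf n ps r n ≠ n := by
    have h1 := root_n E r
    intro h2
    rw [root_ge (by omega)] at h1
    omega
  unfold wt
  rw [prod_Ico_succ_top (by omega), if_neg h0, mul_comm, card_blocks E r]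
  congr 1
  rw [← range_eq_Ico, prod_ite, prod_const_one, one_mul, prod_const]
  congr 1
  have h2 := card_filter_add_card_filter_not (s := range n) (fun x => prevf n ps r x = x)
  rw [card_range] at h2
  omega

theorem ZZ_eq [Finite P] (E : Enum n ps ι) (q : ℝ) :
    ZZ cor q n = q * ∑ᶠ r ∈ {r : Setoid P | CombNC cor n ps r},
      q ^ (n - Nat.card (Quotient r)) := by
  classical
  have hfin : Finite (Setoid P) := by
    have hf : Function.Injective (fun (r : Setoid P) => (fun x : P × P => r x.1 x.2)) := by
      intro r r' h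
      ext x y
      have := congrFun h (x, y)
      simp only at this
      rw [this]
    exact Finite.of_injective _ hf
  have hS : {r : Setoid P | CombNC cor n ps r}.Finite := Set.toFinite _
  rw [finsum_mem_eq_finite_toFinset_sum _ hS, mul_sum]
  unfold ZZ
  symm
  apply sum_nbij' (fun r => prevf n ps r) (fun p => ofCode ι p)
  · intro r hr
    rw [Set.Finite.mem_toFinset] at hr
    rw [mem_filter, mem_SF]
    exact ⟨prevf_good hr, root_n E r⟩
  · intro p hp
    rw [mem_filter, mem_SF] at hp
    rw [Set.Finite.mem_toFinset]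
    exact ofCode_comb E hp.1 hp.2
  · intro r hr
    exact ofCode_prevf E r
  · intro p hp
    rw [mem_filter, mem_SF] at hp
    exact prevf_ofCode E hp.1 hp.2
  · intro r hr
    rw [wt_eq E r]

end part

end Pool.Agent.R171.NC
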