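import Mathlib
import Pool.Agent.R171.NC.Part

/-!
# Geometry of points on the boundary of a convex polygon
-/

namespace Pool.Agent.R171.NC

open Finset

/-- the plane -/
abbrev Pt := ℝ × ℝ

/-- twice the signed area of the triangle `a b c` -/
def det (a b c : Pt) : ℝ := (b.1 - a.1) * (c.2 - a.2) - (b.2 - a.2) * (c.1 - a.1)

/-- a point of the side `i` -/
def pp (v : ℕ → Pt) (i : ℕ) (s : ℝ) : Pt := (1 - s) • v i + s • v (i + 1)

/-- affine functional -/
def Aff (f : Pt → ℝ) : Prop := ∀ x y : Pt, ∀ a b : ℝ, a + b = 1 → f (a • x + b • y) = a * f x + b * f y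

theorem aff_det (a b : Pt) : Aff (fun c => det a b c) := by
  intro x y s t h
  have hs : s = 1 - t := by linarith
  subst hs
  simp only [det, Prod.fst_add, Prod.snd_add, Prod.smul_fst, Prod.smul_snd, smul_eq_mul]
  ring

theorem Aff.neg {f : Pt → ℝ} (h : Aff f) : Aff (fun x => -f x) := by
  intro x y a b hab
  simp only [h x y a b hab]
  ring

/-! ### Separation -/

theorem conv_face {A : Set Pt} {f : Pt → ℝ} (hf : Aff f) (hA : ∀ a ∈ A, f a ≤ 0) :
    convexHull ℝ A ⊆ {y | f y < 0} ∪ convexHull ℝ {a ∈ A | f a = 0} := by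
  have hle : ∀ y ∈ convexHull ℝ {a ∈ A | f a = 0}, f y = 0 := by
    intro y hy
    have hsub : convexHull ℝ {a ∈ A | f a = 0} ⊆ {y | f y = 0} := by
      apply convexHull_min
      · intro a ha
        exact ha.2
      · intro x hx y hy a b ha hb hab
        show f (a • x + b • y) = 0
        rw [hf x y a b hab, show f x = 0 from hx, show f y = 0 from hy]
        ring
    exact hsub hy
  apply convexHull_min
  · intro a ha
    rcases (hA a ha).lt_or_eq with h | h
    · exact Or.inl h
    · exact Or.inr (subset_convexHull ℝ _ ⟨ha, h⟩)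
  · intro x hx y hy a b ha hb hab
    have hfx : f x ≤ 0 := by
      rcases hx with h | h
      · exact le_of_lt h
      · exact (hle x h).le
    have hfy : f y ≤ 0 := by
      rcases hy with h | h
      · exact le_of_lt h
      · exact (hle y h).le
    rcases eq_or_lt_of_le ha with ha0 | ha0
    · have hb1 : b = 1 := by linarith
      rw [← ha0, hb1, zero_smul, one_smul, zero_add]
      exact hy
    · rcases eq_or_lt_of_le hb with hb0 | hb0
      · have ha1 : a = 1 := by linarith
        rw [← hb0, ha1, zero_smul, one_smul, add_zero]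
        exact hx
      · rcases hx with h1 | h1
        · left
          show f (a • x + b • y) < 0
          rw [hf x y a b hab]
          have : a * f x < 0 := mul_neg_of_pos_of_neg ha0 h1
          have : b * f y ≤ 0 := mul_nonpos_of_nonneg_of_nonpos hb hfy
          linarith
        · rcases hy with h2 | h2
          · left
            show f (a • x + b • y) < 0
            rw [hf x y a b hab]
            have : b * f y < 0 := mul_neg_of_pos_of_neg hb0 h2
            have : a * f x ≤ 0 := mul_nonpos_of_nonneg_of_nonpos ha hfx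
            linarith
          · right
            exact (convex_convexHull ℝ _) h1 h2 ha hb hab

theorem lexsep {A B : Set Pt} (hfin : A.Finite) {f g : Pt → ℝ} (hf : Aff f) (hg : Aff g)
    (hA : ∀ a ∈ A, f a ≤ 0) (hB : ∀ b ∈ B, 0 ≤ f b)
    (hAB : ∀ a ∈ A, f a = 0 → ∀ b ∈ B, f b = 0 → g a < g b) :
    Disjoint (convexHull ℝ A) (convexHull ℝ B) := by
  rw [Set.disjoint_left]
  intro x hxA hxB
  have hfx1 : f x ≤ 0 := by
    have hsub : convexHull ℝ A ⊆ {y | f y ≤ 0} := by
      apply convexHull_min hA
      intro x hx y hy a b ha hb hab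
      show f (a • x + b • y) ≤ 0
      rw [hf x y a b hab]
      have h1 : a * f x ≤ 0 := mul_nonpos_of_nonneg_of_nonpos ha hx
      have h2 : b * f y ≤ 0 := mul_nonpos_of_nonneg_of_nonpos hb hy
      linarith
    exact hsub hxA
  have hfx2 : 0 ≤ f x := by
    have hsub : convexHull ℝ B ⊆ {y | 0 ≤ f y} := by
      apply convexHull_min hB
      intro x hx y hy a b ha hb hab
      show 0 ≤ f (a • x + b • y)
      rw [hf x y a b hab]
      have h1 : 0 ≤ a * f x := mul_nonneg ha hx
      have h2 : 0 ≤ b * f y := mul_nonneg hb hy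
      linarith
    exact hsub hxB
  have hfx : f x = 0 := le_antisymm hfx1 hfx2
  have hA0 : x ∈ convexHull ℝ {a ∈ A | f a = 0} := by
    rcases conv_face hf hA hxA with h | h
    · exact absurd hfx (ne_of_lt h)
    · exact h
  have hB0 : x ∈ convexHull ℝ {b ∈ B | f b = 0} := by
    rcases conv_face hf.neg (A := B) (by intro b hb; have := hB b hb; linarith) hxB
      with h | h
    · exfalso
      have h' : -f x < 0 := h
      linarith
    · have : {a ∈ B | -f a = 0} = {b ∈ B | f b = 0} := by
        ext b
        simp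
      rw [this] at h
      exact h
  have hne : {a ∈ A | f a = 0}.Nonempty := convexHull_nonempty_iff.1 ⟨x, hA0⟩
  obtain ⟨a0, ha0, hmax⟩ := Set.exists_max_image {a ∈ A | f a = 0} g
    (hfin.subset (fun a ha => ha.1)) hne
  have h1 : g x ≤ g a0 := by
    have hsub : convexHull ℝ {a ∈ A | f a = 0} ⊆ {y | g y ≤ g a0} := by
      apply convexHull_min hmax
      intro x hx y hy a b ha hb hab
      show g (a • x + b • y) ≤ g a0
      rw [hg x y a b hab]
      have h1 : a * g x ≤ a * g a0 := mul_le_mul_of_nonneg_left hx ha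
      have h2 : b * g y ≤ b * g a0 := mul_le_mul_of_nonneg_left hy hb
      have h3 : a * g a0 + b * g a0 = g a0 := by rw [← add_mul, hab, one_mul]
      linarith
    exact hsub hA0
  have h2 : g a0 < g x := by
    have hsub : convexHull ℝ {b ∈ B | f b = 0} ⊆ {y | g a0 < g y} := by
      apply convexHull_min
      · intro b hb
        exact hAB a0 ha0.1 ha0.2 b hb.1 hb.2
      · intro x hx y hy a b ha hb hab
        show g a0 < g (a • x + b • y)
        rw [hg x y a b hab]
        have hx' : g a0 < g x := hx
        have hy' : g a0 < g y := hy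
        have h3 : a * g a0 + b * g a0 = g a0 := by rw [← add_mul, hab, one_mul]
        rcases eq_or_lt_of_le ha with h0 | h0
        · have hb1 : b = 1 := by linarith
          rw [← h0, hb1]
          linarith
        · have h1 : a * g a0 < a * g x := mul_lt_mul_of_pos_left hx' h0
          have h2 : b * g a0 ≤ b * g y := mul_le_mul_of_nonneg_left hy'.le hb
          linarith
    exact hsub hB0
  linarith

/-! ### Orientation -/

/-- a convex polygon with vertices in counterclockwise order -/
structure Poly (k : ℕ) (v : ℕ → Pt) : Prop where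
  k3 : 3 ≤ k
  wrap : v k = v 0
  pos : ∀ i j l, i < j → j < l → l < k → 0 < det (v i) (v j) (v l)

/-- the combinatorial data of the points on the boundary of a convex polygon -/
structure Data (n k : ℕ) (v : ℕ → Pt) (sd : ℕ → ℕ) (t : ℕ → ℝ) : Prop where
  poly : Poly k v
  t0 : ∀ i, i ≤ n → 0 ≤ t i ∧ t i < 1
  lex : ∀ i j, i < j → j ≤ n → sd i < sd j ∨ (sd i = sd j ∧ t i < t j)
  first : sd 0 = 0 ∧ t 0 = 0
  last : sd n = k ∧ t n = 0
  corn : ∀ m, m ≤ k → ∃ i, i ≤ n ∧ sd i = m ∧ t i = 0

section geom

variable {n k : ℕ} {v : ℕ → Pt} {sd : ℕ → ℕ} {t : ℕ → ℝ}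

theorem det_cyc (a b c : Pt) : det a b c = det b c a := by
  unfold det; ring

theorem det_swap (a b c : Pt) : det a b c = - det a c b := by
  unfold det; ring

theorem det_self1 (a b : Pt) : det a a b = 0 := by
  unfold det; ring

theorem det_self2 (a b : Pt) : det a b b = 0 := by
  unfold det; ring

theorem det_self3 (a b : Pt) : det a b a = 0 := by
  unfold det; ring

/-- vertices in nondecreasing order -/
theorem Poly.vpos (D : Poly k v) {i j l : ℕ} (h1 : i < j) (h2 : j < l) (h3 : l ≤ k)
    (h4 : ¬ (i = 0 ∧ l = k)) : 0 < det (v i) (v j) (v l) := by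
  rcases Nat.lt_or_ge l k with h | h
  · exact D.pos i j l h1 h2 h
  · have : l = k := by omega
    subst this
    rw [D.wrap, det_cyc, det_cyc]
    exact D.pos 0 i j (by omega) h1 h2

theorem Poly.vnn (D : Poly k v) {i j l : ℕ} (h1 : i ≤ j) (h2 : j ≤ l) (h3 : l ≤ k) :
    0 ≤ det (v i) (v j) (v l) := by
  rcases Nat.eq_or_lt_of_le h1 with rfl | h1'
  · rw [det_self1]
  · rcases Nat.eq_or_lt_of_le h2 with rfl | h2'
    · rw [det_self2]
    · by_cases h4 : i = 0 ∧ l = k
      · obtain ⟨rfl, rfl⟩ := h4
        rw [D.wrap, det_self3]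
      · exact (D.vpos h1' h2' h3 h4).le

theorem det_pp3 (a b : Pt) (i : ℕ) (s : ℝ) :
    det a b (pp v i s) = (1 - s) * det a b (v i) + s * det a b (v (i + 1)) := by
  unfold pp
  exact aff_det a b (v i) (v (i + 1)) (1 - s) s (by ring)

theorem det_pp2 (a b : Pt) (i : ℕ) (s : ℝ) :
    det a (pp v i s) b = (1 - s) * det a (v i) b + s * det a (v (i + 1)) b := by
  rw [det_swap, det_pp3, det_swap a (v i), det_swap a (v (i + 1))]
  ring

theorem det_pp1 (a b : Pt) (i : ℕ) (s : ℝ) :
    det (pp v i s) a b = (1 - s) * det (v i) a b + s * det (v (i + 1)) a b := by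
  rw [det_cyc, det_pp3, ← det_cyc (v i), ← det_cyc (v (i + 1))]

theorem det_same (c : Pt) (i : ℕ) (s u : ℝ) :
    det (pp v i s) (pp v i u) c = (u - s) * det (v i) (v (i + 1)) c := by
  simp only [det, pp, Prod.fst_add, Prod.snd_add, Prod.smul_fst, Prod.smul_snd, smul_eq_mul]
  ring

/-- the point with index `i` -/
def pt (v : ℕ → Pt) (sd : ℕ → ℕ) (t : ℕ → ℝ) (i : ℕ) : Pt := pp v (sd i) (t i)

/-- the side `m` contains the point `i` -/
def onSide (k : ℕ) (sd : ℕ → ℕ) (t : ℕ → ℝ) (m i : ℕ) : Prop :=
  sd i = m ∨ (sd i = m + 1 ∧ t i = 0) ∨ (m + 1 = k ∧ sd i = 0 ∧ t i = 0)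

theorem Data.sd_lt (D : Data n k v sd t) {i : ℕ} (h : i < n) : sd i < k := by
  rcases D.lex i n h le_rfl with h1 | h1
  · rw [D.last.1] at h1
    exact h1
  · rw [D.last.2] at h1
    have := (D.t0 i h.le).1
    linarith

/-- all points lie on the left of a side, and the points on the line are those of the side -/
theorem Poly.side (D : Poly k v) {m i : ℕ} {s : ℝ} (hm : m < k) (hs : i < k) (ht0 : 0 ≤ s)
    (ht1 : s < 1) :
    0 ≤ det (v m) (v (m + 1)) (pp v i s) ∧
      (det (v m) (v (m + 1)) (pp v i s) = 0 →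
        i = m ∨ (i = m + 1 ∧ s = 0) ∨ (m + 1 = k ∧ i = 0 ∧ s = 0)) := by
  have hk := D.k3
  rw [det_pp3]
  rcases lt_trichotomy (i) m with h | h | h
  · -- `i < m`
    have e1 : det (v m) (v (m + 1)) (v (i)) = det (v (i)) (v m) (v (m + 1)) := by
      rw [det_cyc, det_cyc]
    have e2 : det (v m) (v (m + 1)) (v (i + 1)) = det (v (i + 1)) (v m) (v (m + 1)) := by
      rw [det_cyc, det_cyc]
    have n1 := D.vnn (i := i) (j := m) (l := m + 1) h.le (by omega) (by omega)
    have n2 := D.vnn (i := i + 1) (j := m) (l := m + 1) (by omega) (by omega) (by omega)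
    rw [e1, e2]
    refine ⟨by
      have := mul_nonneg (by linarith : (0 : ℝ) ≤ 1 - s) n1
      have := mul_nonneg ht0 n2
      linarith, fun h0 => ?_⟩
    by_cases hc : i = 0 ∧ m + 1 = k
    · obtain ⟨hc1, hc2⟩ := hc
      have p2 : 0 < det (v (i + 1)) (v m) (v (m + 1)) :=
        D.vpos (by omega) (by omega) (by omega) (by omega)
      have h3 := mul_nonneg (by linarith : (0 : ℝ) ≤ 1 - s) n1
      have h4 := mul_nonneg ht0 n2
      have h5 : s * det (v (i + 1)) (v m) (v (m + 1)) = 0 := by linarith
      rcases mul_eq_zero.1 h5 with h6 | h6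
      · exact Or.inr (Or.inr ⟨hc2, hc1, h6⟩)
      · exact absurd h6 p2.ne'
    · exfalso
      have p1 : 0 < det (v (i)) (v m) (v (m + 1)) := D.vpos h (by omega) (by omega) hc
      have h3 := mul_pos (by linarith : (0 : ℝ) < 1 - s) p1
      have h4 := mul_nonneg ht0 n2
      linarith
  · rw [h, det_self3, det_self2]
    refine ⟨by simp, fun _ => Or.inl rfl⟩
  · have n1 := D.vnn (i := m) (j := m + 1) (l := i) (by omega) (by omega) (by omega)
    have n2 := D.vnn (i := m) (j := m + 1) (l := i + 1) (by omega) (by omega) (by omega)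
    refine ⟨by
      have := mul_nonneg (by linarith : (0 : ℝ) ≤ 1 - s) n1
      have := mul_nonneg ht0 n2
      linarith, fun h0 => ?_⟩
    rcases Nat.eq_or_lt_of_le (show m + 1 ≤ i by omega) with h5 | h5
    · have p2 : 0 < det (v m) (v (m + 1)) (v (i + 1)) :=
        D.vpos (by omega) (by omega) (by omega) (by omega)
      have h3 := mul_nonneg (by linarith : (0 : ℝ) ≤ 1 - s) n1
      have h4 := mul_nonneg ht0 n2
      have h5' : s * det (v m) (v (m + 1)) (v (i + 1)) = 0 := by linarith
      rcases mul_eq_zero.1 h5' with h6 | h6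
      · exact Or.inr (Or.inl ⟨h5.symm, h6⟩)
      · exact absurd h6 p2.ne'
    · exfalso
      have p1 : 0 < det (v m) (v (m + 1)) (v (i)) :=
        D.vpos (by omega) h5 (by omega) (by omega)
      have h3 := mul_pos (by linarith : (0 : ℝ) < 1 - s) p1
      have h4 := mul_nonneg ht0 n2
      linarith

theorem Data.side (D : Data n k v sd t) {m i : ℕ} (hm : m < k) (hi : i < n) :
    0 ≤ det (v m) (v (m + 1)) (pt v sd t i) ∧
      (det (v m) (v (m + 1)) (pt v sd t i) = 0 → onSide k sd t m i) :=
  D.poly.side hm (D.sd_lt hi) (D.t0 i hi.le).1 (D.t0 i hi.le).2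

/-- orientation of three points in increasing order, with the cases of collinearity -/
theorem Data.orient (D : Data n k v sd t) {a b c : ℕ} (hab : a < b) (hbc : b < c) (hc : c < n) :
    0 ≤ det (pt v sd t a) (pt v sd t b) (pt v sd t c) ∧
      (det (pt v sd t a) (pt v sd t b) (pt v sd t c) = 0 →
        (sd a = sd b ∧ (sd c = sd a ∨ (sd c = sd a + 1 ∧ t c = 0))) ∨
        (sd a = 0 ∧ t a = 0 ∧ sd b + 1 = k ∧ sd c + 1 = k)) := by
  have sa := D.sd_lt (hab.trans (hbc.trans hc))
  have sb := D.sd_lt (hbc.trans hc)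
  have sc := D.sd_lt hc
  obtain ⟨ta0, ta1⟩ := D.t0 a (by omega)
  obtain ⟨tb0, tb1⟩ := D.t0 b (by omega)
  obtain ⟨tc0, tc1⟩ := D.t0 c (by omega)
  have hk := D.poly.k3
  rcases D.lex a b hab (by omega) with hsab | ⟨hsab, htab⟩
  · rcases D.lex b c hbc (by omega) with hsbc | ⟨hsbc, htbc⟩
    · -- three different sides
      have key : 0 < det (pt v sd t a) (pt v sd t b) (pt v sd t c) := by
        unfold pt
        rw [det_pp1, det_pp2, det_pp2, det_pp3, det_pp3, det_pp3, det_pp3]
        have p0 : 0 < det (v (sd a)) (v (sd b)) (v (sd c)) := D.poly.vpos hsab hsbc sc.le (by omega)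
        have n1 := D.poly.vnn (i := sd a) (j := sd b) (l := sd c + 1) (by omega) (by omega) (by omega)
        have n2 := D.poly.vnn (i := sd a) (j := sd b + 1) (l := sd c) (by omega) (by omega) (by omega)
        have n3 := D.poly.vnn (i := sd a) (j := sd b + 1) (l := sd c + 1) (by omega) (by omega) (by omega)
        have n4 := D.poly.vnn (i := sd a + 1) (j := sd b) (l := sd c) (by omega) (by omega) (by omega)
        have n5 := D.poly.vnn (i := sd a + 1) (j := sd b) (l := sd c + 1) (by omega) (by omega) (by omega)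
        have n6 := D.poly.vnn (i := sd a + 1) (j := sd b + 1) (l := sd c) (by omega) (by omega) (by omega)
        have n7 := D.poly.vnn (i := sd a + 1) (j := sd b + 1) (l := sd c + 1) (by omega) (by omega)
          (by omega)
        have ta1' : 0 < 1 - t a := by linarith
        have tb1' : 0 < 1 - t b := by linarith
        have tc1' : 0 < 1 - t c := by linarith
        have q1 : 0 < (1 - t b) * ((1 - t c) * det (v (sd a)) (v (sd b)) (v (sd c)) +
            t c * det (v (sd a)) (v (sd b)) (v (sd c + 1))) := by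
          apply mul_pos tb1'
          have := mul_pos tc1' p0
          have := mul_nonneg tc0 n1
          linarith
        have q2 : 0 ≤ t b * ((1 - t c) * det (v (sd a)) (v (sd b + 1)) (v (sd c)) +
            t c * det (v (sd a)) (v (sd b + 1)) (v (sd c + 1))) := by
          apply mul_nonneg tb0
          have := mul_nonneg tc1'.le n2
          have := mul_nonneg tc0 n3
          linarith
        have q3 : 0 ≤ (1 - t b) * ((1 - t c) * det (v (sd a + 1)) (v (sd b)) (v (sd c)) +
            t c * det (v (sd a + 1)) (v (sd b)) (v (sd c + 1))) := by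
          apply mul_nonneg tb1'.le
          have := mul_nonneg tc1'.le n4
          have := mul_nonneg tc0 n5
          linarith
        have q4 : 0 ≤ t b * ((1 - t c) * det (v (sd a + 1)) (v (sd b + 1)) (v (sd c)) +
            t c * det (v (sd a + 1)) (v (sd b + 1)) (v (sd c + 1))) := by
          apply mul_nonneg tb0
          have := mul_nonneg tc1'.le n6
          have := mul_nonneg tc0 n7
          linarith
        have r1 := mul_pos ta1' (by linarith :
          0 < (1 - t b) * ((1 - t c) * det (v (sd a)) (v (sd b)) (v (sd c)) +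
            t c * det (v (sd a)) (v (sd b)) (v (sd c + 1))) +
            t b * ((1 - t c) * det (v (sd a)) (v (sd b + 1)) (v (sd c)) +
            t c * det (v (sd a)) (v (sd b + 1)) (v (sd c + 1))))
        have r2 := mul_nonneg ta0 (add_nonneg q3 q4)
        linarith
      exact ⟨key.le, fun h => absurd h key.ne'⟩
    · -- `b` and `c` on the same side
      have e : det (pt v sd t a) (pt v sd t b) (pt v sd t c) =
          (t c - t b) * det (v (sd b)) (v (sd b + 1)) (pt v sd t a) := by
        rw [det_cyc]
        unfold pt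
        rw [← hsbc, det_same]
      obtain ⟨h1, h2⟩ := D.side sb (hab.trans (hbc.trans hc))
      rw [e]
      refine ⟨mul_nonneg (by linarith) h1, fun h => ?_⟩
      rcases mul_eq_zero.1 h with h3 | h3
      · linarith
      · rcases h2 h3 with h4 | ⟨h4, _⟩ | ⟨h4, h5, h6⟩
        · omega
        · omega
        · exact Or.inr ⟨h5, h6, h4, by omega⟩
  · have e : det (pt v sd t a) (pt v sd t b) (pt v sd t c) =
        (t b - t a) * det (v (sd a)) (v (sd a + 1)) (pt v sd t c) := by
      unfold pt
      rw [← hsab, det_same]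
    obtain ⟨h1, h2⟩ := D.side sa hc
    rw [e]
    refine ⟨mul_nonneg (by linarith) h1, fun h => ?_⟩
    rcases mul_eq_zero.1 h with h3 | h3
    · linarith
    · left
      refine ⟨hsab, ?_⟩
      rcases h2 h3 with h4 | ⟨h4, h5⟩ | ⟨h4, h5, h6⟩
      · exact Or.inl h4
      · exact Or.inr ⟨h4, h5⟩
      · have := D.lex b c hbc (by omega)
        omega

end geom

end Pool.Agent.R171.NC
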