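import Mathlib
import Pool.Agent.R171.NC.Geom

/-!
# Noncrossing partitions of a hull configuration: geometric and combinatorial form agree
-/

namespace Pool.Agent.R171.NC

open Finset

/-- the block of `u` as a set of points -/
def blk {S : Finset Pt} (r : Setoid S) (u : S) : Set Pt := {x | ∃ h : x ∈ S, r u ⟨x, h⟩}

/-- distinct blocks have disjoint convex hulls -/
def GeomNC {S : Finset Pt} (r : Setoid S) : Prop :=
  ∀ u w : S, ¬ r u w → Disjoint (convexHull ℝ (blk r u)) (convexHull ℝ (blk r w))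

/-- the corners -/
def corr (n : ℕ) (t : ℕ → ℝ) : ℕ → Prop := fun c => c ≤ n ∧ t c = 0

/-- a configuration with its enumeration -/
structure Conf (n k : ℕ) (v : ℕ → Pt) (sd : ℕ → ℕ) (t : ℕ → ℝ) (S : Finset Pt)
    (ps : ℕ → S) (ι : S → ℕ) : Prop where
  D : Data n k v sd t
  E : Enum n ps ι
  pteq : ∀ i, i ≤ n → (ps i : Pt) = pt v sd t i

section

variable {n k : ℕ} {v : ℕ → Pt} {sd : ℕ → ℕ} {t : ℕ → ℝ} {S : Finset Pt}
  {ps : ℕ → S} {ι : S → ℕ} {r : Setoid S}

theorem blk_fin (r : Setoid S) (u : S) : (blk r u).Finite :=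
  (Finset.finite_toSet S).subset (fun _ hx => hx.1)

theorem seg_sub {u w : S} (h : r u w) : segment ℝ (u : Pt) (w : Pt) ⊆ convexHull ℝ (blk r u) := by
  apply segment_subset_convexHull
  · exact ⟨u.2, r.refl' u⟩
  · exact ⟨w.2, h⟩

theorem pp_seg {m : ℕ} {s1 s2 s3 : ℝ} (h1 : s1 < s2) (h2 : s2 < s3) :
    pp v m s2 ∈ segment ℝ (pp v m s1) (pp v m s3) := by
  have h3 : 0 < s3 - s1 := by linarith
  refine ⟨(s3 - s2) / (s3 - s1), (s2 - s1) / (s3 - s1), ?_, ?_, ?_, ?_⟩
  · exact div_nonneg (by linarith) h3.le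
  · exact div_nonneg (by linarith) h3.le
  · field_simp
    ring
  · unfold pp
    ext
    · simp only [Prod.fst_add, Prod.smul_fst, smul_eq_mul]
      field_simp
      ring
    · simp only [Prod.snd_add, Prod.smul_snd, smul_eq_mul]
      field_simp
      ring

theorem pp_one (m : ℕ) : pp v m 1 = v (m + 1) := by
  unfold pp
  simp

theorem pp_zero (m : ℕ) : pp v m 0 = v m := by
  unfold pp
  simp

theorem Data.cross (D : Data n k v sd t) {a b c d : ℕ} (hab : a < b) (hbc : b < c) (hcd : c < d)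
    (hd : d < n) : ∃ x, x ∈ segment ℝ (pt v sd t a) (pt v sd t c) ∧
      x ∈ segment ℝ (pt v sd t b) (pt v sd t d) := by
  obtain ⟨o1, z1⟩ := D.orient hbc hcd hd
  obtain ⟨o2, z2⟩ := D.orient (hab.trans hbc) hcd hd
  obtain ⟨o3, z3⟩ := D.orient hab (hbc.trans hcd) hd
  obtain ⟨o4, z4⟩ := D.orient hab hbc (hcd.trans hd)
  have hsum : det (pt v sd t b) (pt v sd t c) (pt v sd t d) +
      det (pt v sd t a) (pt v sd t b) (pt v sd t d) =
      det (pt v sd t a) (pt v sd t c) (pt v sd t d) +
      det (pt v sd t a) (pt v sd t b) (pt v sd t c) := by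
    unfold det; ring
  have hx : det (pt v sd t b) (pt v sd t c) (pt v sd t d) * (pt v sd t a).1 +
      det (pt v sd t a) (pt v sd t b) (pt v sd t d) * (pt v sd t c).1 =
      det (pt v sd t a) (pt v sd t c) (pt v sd t d) * (pt v sd t b).1 +
      det (pt v sd t a) (pt v sd t b) (pt v sd t c) * (pt v sd t d).1 := by
    unfold det; ring
  have hy : det (pt v sd t b) (pt v sd t c) (pt v sd t d) * (pt v sd t a).2 +
      det (pt v sd t a) (pt v sd t b) (pt v sd t d) * (pt v sd t c).2 =
      det (pt v sd t a) (pt v sd t c) (pt v sd t d) * (pt v sd t b).2 +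
      det (pt v sd t a) (pt v sd t b) (pt v sd t c) * (pt v sd t d).2 := by
    unfold det; ring
  set D1 := det (pt v sd t b) (pt v sd t c) (pt v sd t d) with hD1
  set D2 := det (pt v sd t a) (pt v sd t c) (pt v sd t d) with hD2
  set D3 := det (pt v sd t a) (pt v sd t b) (pt v sd t d) with hD3
  set D4 := det (pt v sd t a) (pt v sd t b) (pt v sd t c) with hD4
  rcases eq_or_lt_of_le (add_nonneg o1 o3) with h0 | h0
  · -- all four collinear
    have e1 : D1 = 0 := by linarith
    have e4 : D4 = 0 := by linarith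
    have f1 := z1 e1
    have f4 := z4 e4
    have ta0 := (D.t0 a (by omega)).1
    have tb0 := (D.t0 b (by omega)).1
    have lab := D.lex a b hab (by omega)
    have lbc := D.lex b c hbc (by omega)
    have lcd := D.lex c d hcd (by omega)
    have g1 : sd b = sd c ∧ (sd d = sd b ∨ (sd d = sd b + 1 ∧ t d = 0)) := by
      rcases f1 with h | ⟨h1, h2, h3, h4⟩
      · exact h
      · exfalso
        rcases lab with h | ⟨h, h'⟩
        · omega
        · linarith
    rcases f4 with ⟨h1, h2⟩ | ⟨h1, h2, h3, h4⟩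
    · refine ⟨pt v sd t b, ?_, left_mem_segment ℝ _ _⟩
      unfold pt
      rw [← g1.1, h1]
      apply pp_seg
      · rcases lab with h | ⟨h, h'⟩
        · omega
        · exact h'
      · rcases lbc with h | ⟨h, h'⟩
        · omega
        · exact h'
    · refine ⟨pt v sd t c, right_mem_segment ℝ _ _, ?_⟩
      have hsd := D.sd_lt hd
      have h5 : sd d = sd b := by omega
      unfold pt
      rw [← g1.1, h5]
      apply pp_seg
      · rcases lbc with h | ⟨h, h'⟩
        · omega
        · exact h'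
      · rcases lcd with h | ⟨h, h'⟩
        · omega
        · exact h'
  · have h1 : 0 < D2 + D4 := by linarith
    refine ⟨(D1 / (D1 + D3)) • pt v sd t a + (D3 / (D1 + D3)) • pt v sd t c,
      ⟨D1 / (D1 + D3), D3 / (D1 + D3), div_nonneg o1 h0.le, div_nonneg o3 h0.le, ?_, rfl⟩,
      ⟨D2 / (D2 + D4), D4 / (D2 + D4), div_nonneg o2 h1.le, div_nonneg o4 h1.le, ?_, ?_⟩⟩
    · field_simp
    · field_simp
    · rw [← hsum]
      ext
      · simp only [Prod.fst_add, Prod.smul_fst, smul_eq_mul]
        field_simp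
        linarith
      · simp only [Prod.snd_add, Prod.smul_snd, smul_eq_mul]
        field_simp
        linarith

theorem Data.noCorner (D : Data n k v sd t) {x y z : ℕ} (hxy : x < y) (hyz : y < z) (hz : z ≤ n)
    (h : ∀ c, corr n t c → ¬ (x < c ∧ c < z)) :
    sd y = sd x ∧ t x < t y ∧ ((sd z = sd x ∧ t y < t z) ∨ (sd z = sd x + 1 ∧ t z = 0)) := by
  have hsx := D.sd_lt (show x < n by omega)
  obtain ⟨c, hc, hsc, htc⟩ := D.corn (sd x + 1) (by omega)
  have lxy := D.lex x y hxy (by omega)
  have lyz := D.lex y z hyz (by omega)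
  have lxz := D.lex x z (by omega) (by omega)
  have tx0 := (D.t0 x (by omega)).1
  have ty0 := (D.t0 y (by omega)).1
  have tz0 := (D.t0 z (by omega)).1
  have hxc : x < c := by
    by_contra hcon
    rcases Nat.eq_or_lt_of_le (Nat.le_of_not_lt hcon) with h1 | h1
    · rw [h1] at hsc
      omega
    · have := D.lex c x h1 (by omega)
      omega
  have hcz : z ≤ c := by
    by_contra hcon
    exact h c ⟨hc, htc⟩ ⟨hxc, by omega⟩
  rcases Nat.eq_or_lt_of_le hcz with h1 | h1
  · have hz1 : sd z = sd x + 1 := by rw [h1]; exact hsc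
    have hz2 : t z = 0 := by rw [h1]; exact htc
    have h5 : sd y = sd x := by
      rcases lyz with h2 | ⟨h2, h3⟩
      · rcases lxy with h4 | h4
        · omega
        · exact h4.1.symm
      · rw [hz2] at h3
        linarith
    refine ⟨h5, ?_, Or.inr ⟨hz1, hz2⟩⟩
    rcases lxy with h4 | h4
    · omega
    · exact h4.2
  · have lzc := D.lex z c h1 hc
    have h2 : sd z = sd x := by
      rcases lzc with h3 | ⟨h3, h4⟩
      · rcases lxz with h5 | h5
        · omega
        · exact h5.1.symm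
      · rw [htc] at h4
        linarith
    have h5 : sd y = sd x := by
      rcases lxy with h4 | h4 <;> rcases lyz with h6 | h6 <;> omega
    refine ⟨h5, ?_, Or.inl ⟨h2, ?_⟩⟩
    · rcases lxy with h4 | h4
      · omega
      · exact h4.2
    · rcases lyz with h4 | h4
      · omega
      · exact h4.2

/-- the geometric condition implies the combinatorial one -/
theorem Conf.comb_of_geom (C : Conf n k v sd t S ps ι) (hr : GeomNC r) :
    CombNC (corr n t) n ps r := by
  have key : ∀ a b c d, a < b → b < c → c < d → d < n → r (ps a) (ps c) → r (ps b) (ps d) →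
      r (ps a) (ps b) := by
    intro a b c d hab hbc hcd hd hac hbd
    by_contra h
    obtain ⟨x, h1, h2⟩ := C.D.cross hab hbc hcd hd
    rw [← C.pteq a (by omega), ← C.pteq c (by omega)] at h1
    rw [← C.pteq b (by omega), ← C.pteq d (by omega)] at h2
    exact Set.disjoint_left.1 (hr _ _ h) (seg_sub hac h1) (seg_sub hbd h2)
  constructor
  · intro a b c d hab hbc hcd hd hac hbd
    rcases Nat.eq_or_lt_of_le hd with h | h
    · rw [h, C.E.wrap] at hbd
      rcases Nat.eq_zero_or_pos a with h0 | h0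
      · rw [h0]
        exact r.symm' hbd
      · have h1 := key 0 a b c h0 hab hbc (by omega) (r.symm' hbd) hac
        exact r.trans' (r.symm' h1) (r.symm' hbd)
    · exact key a b c d hab hbc hcd h hac hbd
  · intro x y z hxy hyz hz hc hxz
    obtain ⟨h1, h2, h3⟩ := C.D.noCorner hxy hyz hz hc
    by_contra h
    have hy : (ps y : Pt) ∈ segment ℝ (ps x : Pt) (ps z : Pt) := by
      rw [C.pteq x (by omega), C.pteq y (by omega), C.pteq z hz]
      unfold pt
      rcases h3 with ⟨h4, h5⟩ | ⟨h4, h5⟩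
      · rw [h1, h4]
        exact pp_seg h2 h5
      · rw [h1, h4, h5, pp_zero, ← pp_one (v := v)]
        exact pp_seg h2 (C.D.t0 y (by omega)).2
    exact Set.disjoint_left.1 (hr _ _ h) (seg_sub hxz hy)
      (subset_convexHull ℝ _ ⟨(ps y).2, r.refl' _⟩)

/-! ### the converse -/

/-- index of a point of the closed side `m`, the start point having the index `n` on the last
side -/
def clo (n : ℕ) (sd : ℕ → ℕ) (t : ℕ → ℝ) (m i : ℕ) : Prop :=
  i ≤ n ∧ (sd i = m ∨ (sd i = m + 1 ∧ t i = 0))

theorem Conf.clo_of (C : Conf n k v sd t S ps ι) {m i : ℕ} (hi : i < n)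
    (h : onSide k sd t m i) : ∃ i', clo n sd t m i' ∧ ps i' = ps i := by
  rcases h with h | h | ⟨h1, h2, h3⟩
  · exact ⟨i, ⟨hi.le, Or.inl h⟩, rfl⟩
  · exact ⟨i, ⟨hi.le, Or.inr h⟩, rfl⟩
  · refine ⟨n, ⟨le_rfl, Or.inr ⟨?_, C.D.last.2⟩⟩, ?_⟩
    · rw [C.D.last.1, h1]
    · have hi0 : i = 0 := by
        by_contra hne
        have := C.D.lex 0 i (by omega) hi.le
        rcases this with h4 | ⟨h4, h5⟩
        · omega
        · have := (C.D.t0 0 (by omega)).1
          linarith
      rw [hi0, C.E.wrap]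

theorem Conf.clo_pt (C : Conf n k v sd t S ps ι) {m i : ℕ} (h : clo n sd t m i) :
    ∃ s, 0 ≤ s ∧ s ≤ 1 ∧ (ps i : Pt) = pp v m s ∧
      ((sd i = m ∧ s = t i) ∨ (sd i = m + 1 ∧ s = 1)) := by
  rw [C.pteq i h.1]
  rcases h.2 with h1 | ⟨h1, h2⟩
  · refine ⟨t i, (C.D.t0 i h.1).1, (C.D.t0 i h.1).2.le, ?_, Or.inl ⟨h1, rfl⟩⟩
    unfold pt
    rw [h1]
  · refine ⟨1, zero_le_one, le_rfl, ?_, Or.inr ⟨h1, rfl⟩⟩
    unfold pt
    rw [h1, h2, pp_zero, pp_one]

/-- the functional along the side `m` -/
def alng (v : ℕ → Pt) (m : ℕ) (x : Pt) : ℝ :=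
  (x.1 - (v m).1) * ((v (m + 1)).1 - (v m).1) + (x.2 - (v m).2) * ((v (m + 1)).2 - (v m).2)

theorem aff_alng (m : ℕ) : Aff (alng v m) := by
  intro x y a b h
  have hs : a = 1 - b := by linarith
  subst hs
  simp only [alng, Prod.fst_add, Prod.snd_add, Prod.smul_fst, Prod.smul_snd, smul_eq_mul]
  ring

theorem alng_pp (m : ℕ) (s : ℝ) : alng v m (pp v m s) =
    s * (((v (m + 1)).1 - (v m).1) ^ 2 + ((v (m + 1)).2 - (v m).2) ^ 2) := by
  simp only [alng, pp, Prod.fst_add, Prod.snd_add, Prod.smul_fst, Prod.smul_snd, smul_eq_mul]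
  ring

theorem det_pp_self (m : ℕ) (s : ℝ) : det (v m) (v (m + 1)) (pp v m s) = 0 := by
  rw [det_pp3, det_self3, det_self2]
  ring

theorem Poly.ne (D : Poly k v) {m : ℕ} (hm : m < k) :
    0 < ((v (m + 1)).1 - (v m).1) ^ 2 + ((v (m + 1)).2 - (v m).2) ^ 2 := by
  by_contra hcon
  push Not at hcon
  have h1 := sq_nonneg ((v (m + 1)).1 - (v m).1)
  have h2 := sq_nonneg ((v (m + 1)).2 - (v m).2)
  have h3 : (v (m + 1)).1 - (v m).1 = 0 := by
    have : ((v (m + 1)).1 - (v m).1) ^ 2 = 0 := by linarith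
    exact pow_eq_zero_iff (two_ne_zero) |>.1 this
  have h4 : (v (m + 1)).2 - (v m).2 = 0 := by
    have : ((v (m + 1)).2 - (v m).2) ^ 2 = 0 := by linarith
    exact pow_eq_zero_iff (two_ne_zero) |>.1 this
  have h5 : v (m + 1) = v m := Prod.ext (by linarith) (by linarith)
  have hk := D.k3
  by_cases h6 : m + 1 < k
  · by_cases h7 : m = 0
    · subst h7
      have := D.vpos (i := 0) (j := 1) (l := 2) (by omega) (by omega) (by omega) (by omega)
      rw [show (1 : ℕ) = 0 + 1 by rfl, h5, det_self1] at this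
      exact lt_irrefl _ this
    · have := D.vpos (i := 0) (j := m) (l := m + 1) (by omega) (by omega) (by omega) (by omega)
      rw [h5, det_self2] at this
      exact lt_irrefl _ this
  · have h7 : m + 1 = k := by omega
    have := D.vpos (i := 1) (j := m) (l := m + 1) (by omega) (by omega) (by omega) (by omega)
    rw [h5, det_self2] at this
    exact lt_irrefl _ this

theorem Conf.clo_lt (C : Conf n k v sd t S ps ι) {m i j : ℕ} (hm : m < k) (hi : clo n sd t m i)
    (hj : clo n sd t m j) (hij : i < j) : alng v m (ps i) < alng v m (ps j) := by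
  obtain ⟨s, hs0, hs1, hs2, hs3⟩ := C.clo_pt hi
  obtain ⟨s', hs0', hs1', hs2', hs3'⟩ := C.clo_pt hj
  rw [hs2, hs2', alng_pp, alng_pp]
  apply mul_lt_mul_of_pos_right _ (C.D.poly.ne hm)
  have ti := (C.D.t0 i hi.1).2
  have tj0 := (C.D.t0 j hj.1).1
  rcases C.D.lex i j hij hj.1 with h | ⟨h, h'⟩
  · rcases hs3 with ⟨h1, h2⟩ | ⟨h1, h2⟩ <;> rcases hs3' with ⟨h3, h4⟩ | ⟨h3, h4⟩
    · omega
    · rw [h2, h4]
      exact ti
    · omega
    · omega
  · rcases hs3 with ⟨h1, h2⟩ | ⟨h1, h2⟩ <;> rcases hs3' with ⟨h3, h4⟩ | ⟨h3, h4⟩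
    · rw [h2, h4]
      exact h'
    · omega
    · omega
    · exfalso
      rcases hj.2 with h5 | ⟨h5, h6⟩
      · omega
      · have := (C.D.t0 i hi.1).1
        linarith

theorem Data.clo_noCorner (D : Data n k v sd t) {m i j : ℕ} (hi : clo n sd t m i)
    (hj : clo n sd t m j) : ∀ c, corr n t c → ¬ (i < c ∧ c < j) := by
  rintro c ⟨hc1, hc2⟩ ⟨h1, h2⟩
  have l1 := D.lex i c h1 hc1
  have l2 := D.lex c j h2 hj.1
  have ti := (D.t0 i hi.1).1
  rcases l1 with h3 | ⟨h3, h4⟩
  · rcases l2 with h5 | ⟨h5, h6⟩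
    · rcases hi.2 with h7 | ⟨h7, _⟩ <;> rcases hj.2 with h8 | ⟨h8, _⟩ <;> omega
    · rcases hj.2 with h8 | ⟨h8, h9⟩
      · rcases hi.2 with h7 | ⟨h7, _⟩ <;> omega
      · linarith
  · linarith

theorem Conf.N2clo (C : Conf n k v sd t S ps ι) (hr : CombNC (corr n t) n ps r) {m i j l : ℕ}
    (hi : clo n sd t m i) (hl : clo n sd t m l) (hij : i < j) (hjl : j < l)
    (h : r (ps i) (ps l)) : r (ps i) (ps j) :=
  hr.2 i j l hij hjl hl.1 (C.D.clo_noCorner hi hl) h

theorem Conf.index (C : Conf n k v sd t S ps ι) {u : S} {x : Pt} (hx : x ∈ blk r u) :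
    ∃ i, i < n ∧ r u (ps i) ∧ (ps i : Pt) = x := by
  obtain ⟨hxS, hrx⟩ := hx
  refine ⟨ι ⟨x, hxS⟩, C.E.lt _, ?_, ?_⟩
  · rw [C.E.left]
    exact hrx
  · rw [C.E.left]

theorem Conf.disjoint_side (C : Conf n k v sd t S ps ι) (hr : CombNC (corr n t) n ps r)
    {u w : S} (h : ¬ r u w) {m : ℕ} (hm : m < k)
    (hA : ∀ a, a < n → r u (ps a) → onSide k sd t m a) :
    Disjoint (convexHull ℝ (blk r u)) (convexHull ℝ (blk r w)) := by
  have hne : ∀ a, r u (ps a) → ¬ r w (ps a) := by
    intro a h1 h2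
    exact h (r.trans' h1 (r.symm' h2))
  have hside : (∀ a b, clo n sd t m a → clo n sd t m b → r u (ps a) → r w (ps b) → a < b) ∨
      (∀ a b, clo n sd t m a → clo n sd t m b → r u (ps a) → r w (ps b) → b < a) := by
    by_contra hcon
    push Not at hcon
    obtain ⟨⟨a, b, ha, hb, hra, hrb, hab⟩, ⟨a', b', ha', hb', hra', hrb', hab'⟩⟩ := hcon
    have h1 : b < a := by
      rcases Nat.eq_or_lt_of_le hab with h2 | h2
      · rw [h2] at hrb
        exact absurd hrb (hne a hra)
      · exact h2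
    have h2 : a' < b' := by
      rcases Nat.eq_or_lt_of_le hab' with h2 | h2
      · rw [h2] at hra'
        exact absurd hrb' (hne b' hra')
      · exact h2
    rcases lt_trichotomy a b' with h3 | h3 | h3
    · have h4 := C.N2clo hr hb hb' h1 h3 (r.trans' (r.symm' hrb) hrb')
      exact hne a hra (r.trans' hrb h4)
    · rw [h3] at hra
      exact hne b' hra hrb'
    · have h4 := C.N2clo hr ha' ha h2 h3 (r.trans' (r.symm' hra') hra)
      exact hne b' (r.trans' hra' h4) hrb'
  have hAz : ∀ x ∈ blk r u, ∃ a, clo n sd t m a ∧ r u (ps a) ∧ (ps a : Pt) = x := by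
    intro x hx
    obtain ⟨i, hi, hri, hxi⟩ := C.index hx
    obtain ⟨i', hi', hpi⟩ := C.clo_of hi (hA i hi hri)
    exact ⟨i', hi', by rw [hpi]; exact hri, by rw [hpi]; exact hxi⟩
  have hAd : ∀ x ∈ blk r u, det (v m) (v (m + 1)) x ≤ 0 := by
    intro x hx
    obtain ⟨a, ha, _, hxa⟩ := hAz x hx
    obtain ⟨s, _, _, hs, _⟩ := C.clo_pt ha
    rw [← hxa, hs, det_pp_self]
  have hBd : ∀ x ∈ blk r w, 0 ≤ det (v m) (v (m + 1)) x := by
    intro x hx
    obtain ⟨i, hi, hri, hxi⟩ := C.index hx
    rw [← hxi, C.pteq i hi.le]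
    exact (C.D.side hm hi).1
  have hBz : ∀ x ∈ blk r w, det (v m) (v (m + 1)) x = 0 →
      ∃ b, clo n sd t m b ∧ r w (ps b) ∧ (ps b : Pt) = x := by
    intro x hx hz
    obtain ⟨i, hi, hri, hxi⟩ := C.index hx
    rw [← hxi, C.pteq i hi.le] at hz
    obtain ⟨i', hi', hpi⟩ := C.clo_of hi ((C.D.side hm hi).2 hz)
    exact ⟨i', hi', by rw [hpi]; exact hri, by rw [hpi]; exact hxi⟩
  rcases hside with hs | hs
  · apply lexsep (blk_fin r u) (aff_det (v m) (v (m + 1))) (aff_alng (v := v) m) hAd hBd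
    intro x hx _ y hy hy0
    obtain ⟨a, ha, hra, hxa⟩ := hAz x hx
    obtain ⟨b, hb, hrb, hyb⟩ := hBz y hy hy0
    rw [← hxa, ← hyb]
    exact C.clo_lt hm ha hb (hs a b ha hb hra hrb)
  · apply lexsep (blk_fin r u) (aff_det (v m) (v (m + 1))) (aff_alng (v := v) m).neg hAd hBd
    intro x hx _ y hy hy0
    obtain ⟨a, ha, hra, hxa⟩ := hAz x hx
    obtain ⟨b, hb, hrb, hyb⟩ := hBz y hy hy0
    rw [← hxa, ← hyb]
    have := C.clo_lt hm hb ha (hs a b ha hb hra hrb)
    linarith

theorem Conf.disjoint_main (C : Conf n k v sd t S ps ι) (hr : CombNC (corr n t) n ps r)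
    {u w : S} (h : ¬ r u w)
    (hA : ∀ m, m < k → ∃ a, a < n ∧ r u (ps a) ∧ ¬ onSide k sd t m a) :
    Disjoint (convexHull ℝ (blk r u)) (convexHull ℝ (blk r w)) := by
  classical
  have hne : ∀ a, r u (ps a) → ¬ r w (ps a) := by
    intro a h1 h2
    exact h (r.trans' h1 (r.symm' h2))
  have tr : ∀ {x a b}, r x (ps a) → r x (ps b) → r (ps a) (ps b) := by
    intro x a b h1 h2
    exact r.trans' (r.symm' h1) h2
  have hb0 : ι w < n := C.E.lt w
  have hrb0 : r w (ps (ι w)) := by rw [C.E.left]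
  have hra0 : r u (ps (ι u)) := by rw [C.E.left]
  generalize ι w = b0 at hb0 hrb0
  let FA := (range n).filter (fun a => r u (ps a))
  have hmem : ∀ a, a ∈ FA ↔ a < n ∧ r u (ps a) := by
    intro a
    rw [mem_filter, mem_range]
  have hFA : FA.Nonempty := ⟨ι u, (hmem _).2 ⟨C.E.lt u, hra0⟩⟩
  -- the generic separation
  have gen : ∀ f : Pt → ℝ, Aff f → (∀ a, a < n → r u (ps a) → f (ps a) ≤ 0) →
      (∀ b, b < n → r w (ps b) → 0 < f (ps b)) →
      Disjoint (convexHull ℝ (blk r u)) (convexHull ℝ (blk r w)) := by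
    intro f hf h1 h2
    apply lexsep (blk_fin r u) hf (aff_alng (v := v) 0)
    · intro x hx
      obtain ⟨i, hi, hri, hxi⟩ := C.index hx
      rw [← hxi]
      exact h1 i hi hri
    · intro x hx
      obtain ⟨i, hi, hri, hxi⟩ := C.index hx
      rw [← hxi]
      exact (h2 i hi hri).le
    · intro x hx _ y hy hy0
      obtain ⟨i, hi, hri, hxi⟩ := C.index hy
      rw [← hxi] at hy0
      exact absurd hy0 (h2 i hi hri).ne'
  obtain ⟨hi0n, hri0⟩ := (hmem _).1 (FA.min'_mem hFA)
  obtain ⟨hj0n, hrj0⟩ := (hmem _).1 (FA.max'_mem hFA)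
  have hmin : ∀ a, a < n → r u (ps a) → FA.min' hFA ≤ a := fun a h1 h2 =>
    FA.min'_le a ((hmem a).2 ⟨h1, h2⟩)
  have hmax : ∀ a, a < n → r u (ps a) → a ≤ FA.max' hFA := fun a h1 h2 =>
    FA.le_max' a ((hmem a).2 ⟨h1, h2⟩)
  generalize FA.min' hFA = i0 at hi0n hri0 hmin
  generalize FA.max' hFA = j0 at hj0n hrj0 hmax
  have hij : i0 < j0 := by
    by_contra hcon
    obtain ⟨a, ha, hra, hna⟩ := hA (sd i0) (C.D.sd_lt hi0n)
    have h1 := hmin a ha hra
    have h2 := hmax a ha hra
    have h3 : a = i0 := by omega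
    exact hna (Or.inl (by rw [h3]))
  have hk := C.D.poly.k3
  by_cases hcase : i0 < b0 ∧ b0 < j0
  · -- `B` lies in a gap of `A`
    obtain ⟨hc1, hc2⟩ := hcase
    have hL : (FA.filter (fun a => a < b0)).Nonempty :=
      ⟨i0, by rw [mem_filter, hmem]; exact ⟨⟨hi0n, hri0⟩, hc1⟩⟩
    have hR : (FA.filter (fun a => b0 < a)).Nonempty :=
      ⟨j0, by rw [mem_filter, hmem]; exact ⟨⟨hj0n, hrj0⟩, hc2⟩⟩
    have hi := (FA.filter (fun a => a < b0)).max'_mem hL
    have hj := (FA.filter (fun a => b0 < a)).min'_mem hR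
    have hi' : ∀ a, a < n → r u (ps a) → a < b0 → a ≤ (FA.filter (fun a => a < b0)).max' hL := by
      intro a h1 h2 h3
      apply le_max'
      rw [mem_filter, hmem]
      exact ⟨⟨h1, h2⟩, h3⟩
    have hj' : ∀ a, a < n → r u (ps a) → b0 < a → (FA.filter (fun a => b0 < a)).min' hR ≤ a := by
      intro a h1 h2 h3
      apply min'_le
      rw [mem_filter, hmem]
      exact ⟨⟨h1, h2⟩, h3⟩
    generalize (FA.filter (fun a => a < b0)).max' hL = i at hi hi'
    generalize (FA.filter (fun a => b0 < a)).min' hR = j at hj hj'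
    rw [mem_filter, hmem] at hi hj
    obtain ⟨⟨hin, hri⟩, hib⟩ := hi
    obtain ⟨⟨hjn, hrj⟩, hjb⟩ := hj
    have hA' : ∀ a, a < n → r u (ps a) → a ≤ i ∨ j ≤ a := by
      intro a h1 h2
      rcases lt_trichotomy a b0 with h3 | h3 | h3
      · exact Or.inl (hi' a h1 h2 h3)
      · rw [h3] at h2
        exact absurd hrb0 (hne b0 h2)
      · exact Or.inr (hj' a h1 h2 h3)
    have hB' : ∀ b, b < n → r w (ps b) → i < b ∧ b < j := by
      intro b h1 h2
      have hbi : b ≠ i := by
        rintro rfl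
        exact hne _ hri h2
      have hbj : b ≠ j := by
        rintro rfl
        exact hne _ hrj h2
      constructor
      · by_contra hcon
        have h3 := hr.1 b i b0 j (by omega) hib hjb hjn.le (tr h2 hrb0) (tr hri hrj)
        exact hne i hri (r.trans' h2 h3)
      · by_contra hcon
        have h3 := hr.1 i b0 j b hib hjb (by omega) h1.le (tr hri hrj) (tr hrb0 h2)
        exact hne b0 (r.trans' hri h3) hrb0
    apply gen (fun x => -det (ps i : Pt) (ps j : Pt) x) (aff_det _ _).neg
    · intro a h1 h2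
      rcases hA' a h1 h2 with h3 | h3
      · rcases Nat.eq_or_lt_of_le h3 with h4 | h4
        · show -det _ _ _ ≤ 0
          rw [h4, det_self3]
          simp
        · have := (C.D.orient h4 (hib.trans hjb) hjn).1
          rw [← C.pteq a (by omega), ← C.pteq i (by omega), ← C.pteq j (by omega), det_cyc] at this
          show -det _ _ _ ≤ 0
          linarith
      · rcases Nat.eq_or_lt_of_le h3 with h4 | h4
        · show -det _ _ _ ≤ 0
          rw [← h4, det_self2]
          simp
        · have := (C.D.orient (hib.trans hjb) h4 h1).1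
          rw [← C.pteq a (by omega), ← C.pteq i (by omega), ← C.pteq j (by omega)] at this
          show -det _ _ _ ≤ 0
          linarith
    · intro b h1 h2
      obtain ⟨h3, h4⟩ := hB' b h1 h2
      obtain ⟨h5, h6⟩ := C.D.orient h3 h4 hjn
      rw [← C.pteq b (by omega), ← C.pteq i (by omega), ← C.pteq j (by omega), det_swap] at h5 h6
      show 0 < -det _ _ _
      rcases h5.lt_or_eq with h7 | h7
      · exact h7
      · exfalso
        rcases h6 h7.symm with ⟨h8, h9⟩ | ⟨h8, h9, h10, h11⟩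
        · -- on one side, in the first sense
          have h12 := C.N2clo hr (m := sd i) (i := i) (j := b) (l := j)
            ⟨hin.le, Or.inl rfl⟩ ⟨hjn.le, h9⟩ h3 h4 (tr hri hrj)
          exact hne b (r.trans' hri h12) h2
        · -- all of `A` on the last side
          have hi00 : i = 0 := by
            by_contra hne0
            rcases C.D.lex 0 i (by omega) (by omega) with h12 | ⟨h12, h13⟩
            · omega
            · have := (C.D.t0 0 (by omega)).1
              linarith
          obtain ⟨a, ha, hra, hna⟩ := hA (sd j) (by omega)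
          apply hna
          rcases hA' a ha hra with h12 | h12
          · have h13 : a = i := by omega
            rw [h13]
            exact Or.inr (Or.inr ⟨h11, h8, h9⟩)
          · left
            have h13 := C.D.sd_lt ha
            rcases Nat.eq_or_lt_of_le h12 with h14 | h14
            · rw [h14]
            · have := C.D.lex j a h14 (by omega)
              omega
  · -- `B` lies outside the range of `A`
    have hb0i : b0 ≠ i0 := by
      rintro rfl
      exact hne _ hri0 hrb0
    have hb0j : b0 ≠ j0 := by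
      rintro rfl
      exact hne _ hrj0 hrb0
    have hB' : ∀ b, b < n → r w (ps b) → b < i0 ∨ j0 < b := by
      intro b h1 h2
      by_contra hcon
      push Not at hcon
      have hbi : b ≠ i0 := by
        rintro rfl
        exact hne _ hri0 h2
      have hbj : b ≠ j0 := by
        rintro rfl
        exact hne _ hrj0 h2
      by_cases h3 : b0 < i0
      · have h4 := hr.1 b0 i0 b j0 h3 (by omega) (by omega) hj0n.le (tr hrb0 h2) (tr hri0 hrj0)
        exact hne i0 hri0 (r.trans' hrb0 h4)
      · have h4 := hr.1 i0 b j0 b0 (by omega) (by omega) (by omega) hb0.le (tr hri0 hrj0)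
          (tr h2 hrb0)
        exact hne b (r.trans' hri0 h4) h2
    -- not all of `A` on a closed side
    have hnside : ∀ m, m < k → ¬ ((sd i0 = m) ∧ (sd j0 = m ∨ (sd j0 = m + 1 ∧ t j0 = 0))) := by
      rintro m hm ⟨h1, h2⟩
      obtain ⟨a, ha, hra, hna⟩ := hA m hm
      apply hna
      have h3 := hmin a ha hra
      have h4 := hmax a ha hra
      rcases Nat.eq_or_lt_of_le h3 with h5 | h5
      · left
        rw [← h5]
        exact h1
      · rcases Nat.eq_or_lt_of_le h4 with h6 | h6
        · rw [h6]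
          rcases h2 with h7 | h7
          · exact Or.inl h7
          · exact Or.inr (Or.inl h7)
        · have h7 := C.D.lex i0 a h5 (by omega)
          have h8 := C.D.lex a j0 h6 (by omega)
          have h9 := (C.D.t0 a (by omega)).1
          left
          rcases h2 with h10 | ⟨h10, h11⟩
          · omega
          · rcases h8 with h12 | ⟨h12, h13⟩
            · omega
            · linarith
    apply gen (fun x => det (ps i0 : Pt) (ps j0 : Pt) x) (aff_det _ _)
    · intro a h1 h2
      have h3 := hmin a h1 h2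
      have h4 := hmax a h1 h2
      show det _ _ _ ≤ 0
      rcases Nat.eq_or_lt_of_le h3 with h5 | h5
      · rw [← h5, det_self3]
      · rcases Nat.eq_or_lt_of_le h4 with h6 | h6
        · rw [h6, det_self2]
        · have := (C.D.orient h5 h6 hj0n).1
          rw [← C.pteq a (by omega), ← C.pteq i0 (by omega), ← C.pteq j0 (by omega),
            det_swap] at this
          linarith
    · intro b h1 h2
      show 0 < det _ _ _
      rcases hB' b h1 h2 with h3 | h3
      · obtain ⟨h5, h6⟩ := C.D.orient h3 hij hj0n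
        rw [← C.pteq b (by omega), ← C.pteq i0 (by omega), ← C.pteq j0 (by omega), det_cyc]
          at h5 h6
        rcases h5.lt_or_eq with h7 | h7
        · exact h7
        · exfalso
          rcases h6 h7.symm with ⟨h8, h9⟩ | ⟨h8, h9, h10, h11⟩
          · exact hnside (sd i0) (C.D.sd_lt hi0n) ⟨rfl, by rw [← h8]; exact h9⟩
          · exact hnside (sd i0) (C.D.sd_lt hi0n) ⟨rfl, Or.inl (by omega)⟩
      · obtain ⟨h5, h6⟩ := C.D.orient hij h3 h1
        rw [← C.pteq b (by omega), ← C.pteq i0 (by omega), ← C.pteq j0 (by omega)] at h5 h6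
        rcases h5.lt_or_eq with h7 | h7
        · exact h7
        · exfalso
          rcases h6 h7.symm with ⟨h8, h9⟩ | ⟨h8, h9, h10, h11⟩
          · exact hnside (sd i0) (C.D.sd_lt hi0n) ⟨rfl, Or.inl h8.symm⟩
          · -- `j0 < b < n` on the last side
            have hi00 : i0 = 0 := by
              by_contra hne0
              rcases C.D.lex 0 i0 (by omega) (by omega) with h12 | ⟨h12, h13⟩
              · omega
              · have := (C.D.t0 0 (by omega)).1
                linarith
            have h12 := C.N2clo hr (m := sd j0) (i := j0) (j := b) (l := n)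
              ⟨hj0n.le, Or.inl rfl⟩ ⟨le_rfl, Or.inr ⟨by rw [C.D.last.1, h10], C.D.last.2⟩⟩ h3 h1
              (by
                rw [C.E.wrap, ← hi00]
                exact tr hrj0 hri0)
            exact hne b (r.trans' hrj0 h12) h2

/-- the two forms agree -/
theorem Conf.geom_iff (C : Conf n k v sd t S ps ι) (r : Setoid S) :
    GeomNC r ↔ CombNC (corr n t) n ps r := by
  constructor
  · exact C.comb_of_geom
  · intro hr u w h
    by_cases hs : ∃ m, m < k ∧ ∀ a, a < n → r u (ps a) → onSide k sd t m a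
    · obtain ⟨m, hm, hA⟩ := hs
      exact C.disjoint_side hr h hm hA
    · push Not at hs
      exact C.disjoint_main hr h hs

end

end Pool.Agent.R171.NC
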