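import Mathlib
import Pool.Agent.R171.NC.Geom2

/-!
# The enumeration of a hull configuration along the boundary of its convex polygon
-/

namespace Pool.Agent.R171.NC

open Finset

/-- a hull configuration without blank sides -/
structure HullData (k : ℕ) (v : ℕ → Pt) (S : Finset Pt) : Prop where
  poly : Poly k v
  vertex : ∀ i, i < k → v i ∈ S
  boundary : ∀ p ∈ S, ∃ i, i < k ∧ p ∈ segment ℝ (v i) (v (i + 1))
  nonblank : ∀ i, i < k → ∃ p ∈ S, p ∈ openSegment ℝ (v i) (v (i + 1))

section

variable {k : ℕ} {v : ℕ → Pt} {S : Finset Pt}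

theorem Poly.inj (D : Poly k v) {i j : ℕ} (hij : i < j) (hj : j < k) : v i ≠ v j := by
  intro h
  have hk := D.k3
  by_cases h1 : j + 1 < k
  · have := D.pos i j (j + 1) hij (by omega) h1
    rw [h, det_self1] at this
    exact lt_irrefl _ this
  · by_cases h2 : i = 0
    · have := D.pos i 1 j (by omega) (by omega) hj
      rw [h, det_self3] at this
      exact lt_irrefl _ this
    · have := D.pos 0 i j (by omega) hij hj
      rw [h, det_self2] at this
      exact lt_irrefl _ this

/-- the boundary parametrisation -/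
noncomputable def bd (v : ℕ → Pt) (x : ℝ) : Pt := pp v ⌊x⌋₊ (x - ⌊x⌋₊)

theorem bd_nat (m : ℕ) : bd v (m : ℝ) = v m := by
  unfold bd
  rw [Nat.floor_natCast, sub_self, pp_zero]

theorem rep_exists (H : HullData k v S) (u : S) : ∃ x : ℝ, 0 ≤ x ∧ x < k ∧ bd v x = u ∧
    ∀ m : ℕ, m < k → (u : Pt) = v m → x = m := by
  by_cases hv : ∃ m, m < k ∧ (u : Pt) = v m
  · obtain ⟨m, hm, hum⟩ := hv
    refine ⟨m, Nat.cast_nonneg m, by exact_mod_cast hm, by rw [bd_nat, hum], ?_⟩
    intro m' hm' h
    rcases lt_trichotomy m m' with h1 | h1 | h1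
    · exact absurd (hum.symm.trans h) (H.poly.inj h1 hm')
    · rw [h1]
    · exact absurd (h.symm.trans hum) (H.poly.inj h1 hm)
  · obtain ⟨i, hi, a, b, ha, hb, hab, hp⟩ := H.boundary u u.2
    have hp' : pp v i b = u := by
      rw [← hp]
      unfold pp
      rw [show 1 - b = a by linarith]
    have hb1 : b < 1 := by
      rcases (show b ≤ 1 by linarith).lt_or_eq with h | h
      · exact h
      · exfalso
        rw [h, pp_one] at hp'
        apply hv
        by_cases h1 : i + 1 < k
        · exact ⟨i + 1, h1, hp'.symm⟩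
        · have h2 : i + 1 = k := by omega
          rw [h2, H.poly.wrap] at hp'
          exact ⟨0, by omega, hp'.symm⟩
    have hfl : ⌊(i : ℝ) + b⌋₊ = i := by
      rw [Nat.floor_eq_iff (by positivity)]
      constructor <;> linarith
    have hik : (i : ℝ) + 1 ≤ k := by exact_mod_cast hi
    refine ⟨i + b, by positivity, by linarith, ?_, ?_⟩
    · unfold bd
      rw [hfl, add_sub_cancel_left, hp']
    · intro m hm h
      exact absurd ⟨m, hm, h⟩ hv

/-- the parameter of a point -/
noncomputable def key (H : HullData k v S) (u : S) : ℝ := Classical.choose (rep_exists H u)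

theorem key_spec (H : HullData k v S) (u : S) : 0 ≤ key H u ∧ key H u < k ∧ bd v (key H u) = u ∧
    ∀ m : ℕ, m < k → (u : Pt) = v m → key H u = m := Classical.choose_spec (rep_exists H u)

theorem key_inj (H : HullData k v S) : Function.Injective (key H) := by
  intro u w h
  have h1 := (key_spec H u).2.2.1
  have h2 := (key_spec H w).2.2.1
  rw [h] at h1
  exact Subtype.ext (h1.symm.trans h2)

open Classical in
/-- the set of parameters -/
noncomputable def KK (H : HullData k v S) : Finset ℝ := Finset.univ.image (key H)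

theorem KK_card (H : HullData k v S) : (KK H).card = S.card := by
  classical
  unfold KK
  rw [card_image_of_injective _ (key_inj H), card_univ, Fintype.card_coe]

theorem mem_KK (H : HullData k v S) (u : S) : key H u ∈ KK H := by
  classical
  unfold KK
  exact mem_image_of_mem _ (mem_univ _)

theorem of_mem_KK (H : HullData k v S) {x : ℝ} (hx : x ∈ KK H) : ∃ u, key H u = x := by
  classical
  unfold KK at hx
  obtain ⟨u, _, hu⟩ := mem_image.1 hx
  exact ⟨u, hu⟩

/-- the sorted parameters -/
noncomputable def kap (H : HullData k v S) (i : ℕ) : ℝ :=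
  if h : i < S.card then (KK H).orderEmbOfFin (KK_card H) ⟨i, h⟩ else k

/-- the index of a point -/
noncomputable def idx (H : HullData k v S) (u : S) : ℕ :=
  (((KK H).orderIsoOfFin (KK_card H)).symm ⟨key H u, mem_KK H u⟩ : Fin S.card)

theorem idx_lt (H : HullData k v S) (u : S) : idx H u < S.card := by
  unfold idx
  exact Fin.is_lt _

theorem kap_idx (H : HullData k v S) (u : S) : kap H (idx H u) = key H u := by
  unfold kap
  rw [dif_pos (idx_lt H u)]
  have h1 : (⟨idx H u, idx_lt H u⟩ : Fin S.card) =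
      ((KK H).orderIsoOfFin (KK_card H)).symm ⟨key H u, mem_KK H u⟩ := by
    apply Fin.ext
    rfl
  rw [h1, ← coe_orderIsoOfFin_apply, OrderIso.apply_symm_apply]

theorem kap_last (H : HullData k v S) : kap H S.card = k := by
  unfold kap
  rw [dif_neg (lt_irrefl _)]

theorem kap_mem (H : HullData k v S) {i : ℕ} (hi : i < S.card) : ∃ u, key H u = kap H i := by
  unfold kap
  rw [dif_pos hi]
  exact of_mem_KK H (orderEmbOfFin_mem _ _ _)

theorem kap_lt_k (H : HullData k v S) {i : ℕ} (hi : i < S.card) : kap H i < k := by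
  obtain ⟨u, hu⟩ := kap_mem H hi
  rw [← hu]
  exact (key_spec H u).2.1

theorem kap_nonneg (H : HullData k v S) (i : ℕ) : 0 ≤ kap H i := by
  by_cases hi : i < S.card
  · obtain ⟨u, hu⟩ := kap_mem H hi
    rw [← hu]
    exact (key_spec H u).1
  · unfold kap
    rw [dif_neg hi]
    exact Nat.cast_nonneg k

theorem kap_strict (H : HullData k v S) {i j : ℕ} (hij : i < j) (hj : j ≤ S.card) :
    kap H i < kap H j := by
  rcases Nat.eq_or_lt_of_le hj with h | h
  · rw [h, kap_last]
    exact kap_lt_k H (by omega)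
  · unfold kap
    rw [dif_pos h, dif_pos (by omega)]
    exact (OrderEmbedding.lt_iff_lt _).2 (by exact hij)

theorem kap_lt_iff (H : HullData k v S) {i j : ℕ} (hi : i ≤ S.card) (h : kap H i < kap H j) :
    i < j := by
  by_contra hcon
  rcases Nat.eq_or_lt_of_le (Nat.le_of_not_lt hcon) with h1 | h1
  · rw [h1] at h
    exact lt_irrefl _ h
  · have := kap_strict H h1 hi
    linarith

theorem kap_vertex (H : HullData k v S) {m : ℕ} (hm : m ≤ k) :
    ∃ i, i ≤ S.card ∧ kap H i = m := by
  rcases Nat.eq_or_lt_of_le hm with h | h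
  · exact ⟨S.card, le_rfl, by rw [kap_last, h]⟩
  · refine ⟨idx H ⟨v m, H.vertex m h⟩, (idx_lt H _).le, ?_⟩
    rw [kap_idx]
    exact (key_spec H ⟨v m, H.vertex m h⟩).2.2.2 m h rfl

theorem kap_zero (H : HullData k v S) : kap H 0 = 0 := by
  obtain ⟨i, hi, h⟩ := kap_vertex H (Nat.zero_le k)
  have h0 := kap_nonneg H 0
  rw [Nat.cast_zero] at h
  rcases Nat.eq_zero_or_pos i with h1 | h1
  · rw [h1] at h
    exact h
  · have := kap_strict H h1 hi
    linarith

/-- the side of a point -/
noncomputable def sdf (H : HullData k v S) (i : ℕ) : ℕ := ⌊kap H i⌋₊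

/-- the parameter along the side -/
noncomputable def tf (H : HullData k v S) (i : ℕ) : ℝ := kap H i - ⌊kap H i⌋₊

theorem bd_mem (H : HullData k v S) {i : ℕ} (hi : i ≤ S.card) : bd v (kap H i) ∈ S := by
  rcases Nat.eq_or_lt_of_le hi with h | h
  · rw [h, kap_last, bd_nat, H.poly.wrap]
    exact H.vertex 0 (by have := H.poly.k3; omega)
  · obtain ⟨u, hu⟩ := kap_mem H h
    rw [← hu, (key_spec H u).2.2.1]
    exact u.2

open Classical in
/-- the enumeration -/
noncomputable def psf (H : HullData k v S) (i : ℕ) : S :=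
  if h : bd v (kap H i) ∈ S then ⟨bd v (kap H i), h⟩
  else ⟨v 0, H.vertex 0 (by have := H.poly.k3; omega)⟩

theorem psf_coe (H : HullData k v S) {i : ℕ} (hi : i ≤ S.card) :
    (psf H i : Pt) = bd v (kap H i) := by
  unfold psf
  rw [dif_pos (bd_mem H hi)]

theorem build (H : HullData k v S) :
    Conf S.card k v (sdf H) (tf H) S (psf H) (idx H) := by
  have hk := H.poly.k3
  have hS : 0 < S.card := card_pos.2 ⟨v 0, H.vertex 0 (by omega)⟩
  refine ⟨⟨H.poly, ?_, ?_, ?_, ?_, ?_⟩, ⟨hS, ?_, idx_lt H, ?_, ?_⟩, ?_⟩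
  · intro i _
    unfold tf
    have h1 := Nat.floor_le (kap_nonneg H i)
    have h2 := Nat.lt_floor_add_one (kap H i)
    constructor <;> linarith
  · intro i j hij hj
    have h1 := kap_strict H hij hj
    have h2 : sdf H i ≤ sdf H j := Nat.floor_le_floor h1.le
    rcases Nat.eq_or_lt_of_le h2 with h3 | h3
    · refine Or.inr ⟨h3, ?_⟩
      unfold tf
      have h4 : (⌊kap H i⌋₊ : ℝ) = ⌊kap H j⌋₊ := by
        have : ⌊kap H i⌋₊ = ⌊kap H j⌋₊ := h3
        rw [this]
      linarith
    · exact Or.inl h3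
  · unfold sdf tf
    rw [kap_zero]
    simp
  · unfold sdf tf
    rw [kap_last]
    simp
  · intro m hm
    obtain ⟨i, hi, h⟩ := kap_vertex H hm
    refine ⟨i, hi, ?_, ?_⟩
    · unfold sdf
      rw [h]
      simp
    · unfold tf
      rw [h]
      simp
  · apply Subtype.ext
    rw [psf_coe H le_rfl, psf_coe H (Nat.zero_le _), kap_last, kap_zero, bd_nat, H.poly.wrap]
    have := bd_nat (v := v) 0
    rw [Nat.cast_zero] at this
    exact this.symm
  · intro u
    apply Subtype.ext
    rw [psf_coe H (idx_lt H u).le, kap_idx, (key_spec H u).2.2.1]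
  · intro i hi
    obtain ⟨u, hu⟩ := kap_mem H hi
    have h1 : psf H i = u := by
      apply Subtype.ext
      rw [psf_coe H hi.le, ← hu, (key_spec H u).2.2.1]
    rw [h1]
    have h2 : kap H (idx H u) = kap H i := by rw [kap_idx, hu]
    rcases lt_trichotomy (idx H u) i with h3 | h3 | h3
    · have := kap_strict H h3 hi.le
      linarith
    · exact h3
    · have := kap_strict H h3 (idx_lt H u).le
      linarith
  · intro i hi
    rw [psf_coe H hi]
    rfl

theorem corr_zero (H : HullData k v S) : corr S.card (tf H) 0 := by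
  refine ⟨Nat.zero_le _, ?_⟩
  exact (build H).D.first.2

theorem corr_last (H : HullData k v S) : corr S.card (tf H) S.card := by
  refine ⟨le_rfl, ?_⟩
  exact (build H).D.last.2

theorem corr_blank (H : HullData k v S) : ∀ c, ¬ (corr S.card (tf H) c ∧
    corr S.card (tf H) (c + 1)) := by
  rintro c ⟨⟨_, h1⟩, ⟨h2, h3⟩⟩
  have C := build H
  have hsc := C.D.sd_lt (show c < S.card by omega)
  obtain ⟨p, hpS, a, b, ha, hb, hab, hp⟩ := H.nonblank (sdf H c) hsc
  set m := sdf H c with hm
  have hp' : pp v m b = p := by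
    rw [← hp]
    unfold pp
    rw [show 1 - b = a by linarith]
  have hne := H.poly.ne hsc
  have hb1 : b < 1 := by linarith
  obtain ⟨g1, g2, g3, _⟩ := key_spec H ⟨p, hpS⟩
  set x := key H ⟨p, hpS⟩ with hx
  have hfl := Nat.floor_le g1
  have hfl2 := Nat.lt_floor_add_one x
  have hfk : ⌊x⌋₊ < k := (Nat.floor_lt g1).2 g2
  have g3' : pp v ⌊x⌋₊ (x - ⌊x⌋₊) = p := g3
  have hdet : det (v m) (v (m + 1)) (pp v ⌊x⌋₊ (x - ⌊x⌋₊)) = 0 := by
    rw [g3', ← hp', det_pp_self]
  have hnot1 : p ≠ v (m + 1) := by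
    intro h
    rw [← hp', ← pp_one (v := v)] at h
    have := congrArg (alng v m) h
    rw [alng_pp, alng_pp, one_mul] at this
    have h5 := mul_lt_mul_of_pos_right hb1 hne
    linarith
  have hnot0 : p ≠ v m := by
    intro h
    rw [← hp', ← pp_zero (v := v) m] at h
    have := congrArg (alng v m) h
    rw [alng_pp, alng_pp, zero_mul] at this
    have h5 := mul_pos hb hne
    linarith
  have hbetween : (m : ℝ) < x ∧ x < m + 1 := by
    rcases (H.poly.side hsc hfk (by linarith) (by linarith)).2 hdet with h | ⟨h, h'⟩ | ⟨h, h', h''⟩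
    · rw [h] at hfl hfl2
      refine ⟨?_, hfl2⟩
      rcases hfl.lt_or_eq with h4 | h4
      · exact h4
      · exfalso
        rw [h, ← h4, sub_self, pp_zero] at g3'
        exact hnot0 g3'.symm
    · exfalso
      rw [h', h, pp_zero] at g3'
      exact hnot1 g3'.symm
    · exfalso
      rw [h'', h', pp_zero] at g3'
      apply hnot1
      rw [h, H.poly.wrap]
      exact g3'.symm
  have hkc : kap H c = m := by
    have h5 : kap H c - ⌊kap H c⌋₊ = 0 := h1
    have h6 : ⌊kap H c⌋₊ = m := rfl
    rw [h6] at h5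
    linarith
  have hkx : kap H (idx H ⟨p, hpS⟩) = x := kap_idx H _
  have hlt : c < idx H ⟨p, hpS⟩ := by
    apply kap_lt_iff H (by omega)
    rw [hkc, hkx]
    exact hbetween.1
  have hle : kap H (c + 1) ≤ x := by
    rw [← hkx]
    rcases Nat.eq_or_lt_of_le (show c + 1 ≤ idx H ⟨p, hpS⟩ by omega) with h5 | h5
    · rw [h5]
    · exact (kap_strict H h5 (idx_lt H _).le).le
  have h5 : kap H (c + 1) - ⌊kap H (c + 1)⌋₊ = 0 := h3
  have h6 := kap_strict H (Nat.lt_succ_self c) h2
  rw [hkc] at h6
  have h7 : kap H (c + 1) = ⌊kap H (c + 1)⌋₊ := by linarith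
  rw [Nat.succ_eq_add_one, h7] at h6
  have h8 : m < ⌊kap H (c + 1)⌋₊ := by exact_mod_cast h6
  have h9 : (m : ℝ) + 1 ≤ ⌊kap H (c + 1)⌋₊ := by exact_mod_cast h8
  linarith [hbetween.2]

/-- the numerical asymmetry -/
theorem asym (H : HullData k v S) :
    2 * ∑ᶠ r ∈ {r : Setoid S | GeomNC r}, (2 : ℝ) ^ (S.card - Nat.card (Quotient r)) ≠
      2 ^ S.card * ∑ᶠ r ∈ {r : Setoid S | GeomNC r},
        (1 / 2 : ℝ) ^ (S.card - Nat.card (Quotient r)) := by
  have C := build H
  have hset : {r : Setoid S | GeomNC r} =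
      {r : Setoid S | CombNC (corr S.card (tf H)) S.card (psf H) r} := by
    ext r
    exact C.geom_iff r
  have h1 := defect_ne_zero (recH (corr S.card (tf H))) (recZ (corr S.card (tf H)))
    (corr_zero H) (corr_blank H) S.card (corr_last H)
  unfold defect at h1
  rw [ZZ_eq C.E, ZZ_eq C.E] at h1
  rw [hset]
  intro h
  apply h1
  rw [h, pow_succ]
  ring

end

end Pool.Agent.R171.NC
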