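import Mathlib
import Pool.Agent.R171.NC.Build

/-!
# The poset of noncrossing partitions
-/

namespace Pool.Agent.R171.NC

open Finset

/-- the poset of noncrossing partitions -/
abbrev NCP (S : Finset Pt) := {r : Setoid S // GeomNC r}

section

variable {S : Finset Pt}

instance finite_setoid (P : Type*) [Finite P] : Finite (Setoid P) := by
  have hf : Function.Injective (fun (r : Setoid P) => (fun x : P × P => r x.1 x.2)) := by
    intro r r' h
    ext x y
    have := congrFun h (x, y)
    simp only at this
    rw [this]
  exact Finite.of_injective _ hf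

theorem card_lt {r s : Setoid S} (h : r < s) : Nat.card (Quotient s) < Nat.card (Quotient r) := by
  have hle : ∀ x y, r x y → s x y := fun x y hxy => h.le hxy
  let f : Quotient r → Quotient s := Quotient.map' id (fun x y hxy => hle x y hxy)
  have hf : Function.Surjective f := by
    intro y
    induction y using Quotient.inductionOn with
    | _ u => exact ⟨Quotient.mk r u, rfl⟩
  have h1 : Nat.card (Quotient s) ≤ Nat.card (Quotient r) := Nat.card_le_card_of_surjective f hf
  rcases h1.lt_or_eq with h2 | h2
  · exact h2
  · exfalso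
    have h3 : Function.Bijective f := by
      refine (Nat.bijective_iff_surjective_and_card f).2 ⟨hf, h2.symm⟩
    apply h.not_ge
    intro x y hxy
    have h4 : f (Quotient.mk r x) = f (Quotient.mk r y) := Quotient.sound hxy
    exact Quotient.exact (h3.1 h4)

theorem card_le (r : Setoid S) : Nat.card (Quotient r) ≤ S.card := by
  have h1 : Nat.card (Quotient r) ≤ Nat.card S :=
    Nat.card_le_card_of_surjective (Quotient.mk r) Quotient.mk_surjective
  have h2 : Nat.card S = S.card := by
    rw [Nat.card_eq_fintype_card, Fintype.card_coe]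
  rwa [h2] at h1

theorem card_pos' (hS : S.Nonempty) (r : Setoid S) : 0 < Nat.card (Quotient r) := by
  obtain ⟨x, hx⟩ := hS
  have : Nonempty (Quotient r) := ⟨Quotient.mk r ⟨x, hx⟩⟩
  exact Nat.card_pos

/-- split off one point -/
def splitOff (r : Setoid S) (p : S) : Setoid S where
  r x y := x = y ∨ (r x y ∧ x ≠ p ∧ y ≠ p)
  iseqv := by
    refine ⟨fun x => Or.inl rfl, ?_, ?_⟩
    · rintro x y (h | ⟨h1, h2, h3⟩)
      · exact Or.inl h.symm
      · exact Or.inr ⟨r.symm' h1, h3, h2⟩
    · rintro x y z (h | ⟨h1, h2, h3⟩) (h' | ⟨h1', h2', h3'⟩)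
      · exact Or.inl (h.trans h')
      · rw [h]
        exact Or.inr ⟨h1', h2', h3'⟩
      · rw [← h']
        exact Or.inr ⟨h1, h2, h3⟩
      · exact Or.inr ⟨r.trans' h1 h1', h2, h3'⟩

theorem splitOff_le (r : Setoid S) (p : S) : splitOff r p ≤ r := by
  rintro x y (h | ⟨h, _⟩)
  · rw [h]
  · exact h

theorem splitOff_card (r : Setoid S) (p : S) :
    Nat.card (Quotient (splitOff r p)) ≤ Nat.card (Quotient r) + 1 := by
  classical
  let g : S → Option (Quotient r) := fun x => if x = p then none else some (Quotient.mk r x)
  have hg : ∀ x y, (splitOff r p) x y → g x = g y := by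
    rintro x y (h | ⟨h1, h2, h3⟩)
    · rw [h]
    · simp only [g, if_neg h2, if_neg h3]
      rw [Quotient.sound h1]
  let f : Quotient (splitOff r p) → Option (Quotient r) := Quotient.lift g hg
  have hf : Function.Injective f := by
    intro a b
    induction a using Quotient.inductionOn with
    | _ x =>
        induction b using Quotient.inductionOn with
        | _ y =>
            intro h
            change g x = g y at h
            apply Quotient.sound
            by_cases hx : x = p
            · by_cases hy : y = p
              · exact Or.inl (hx.trans hy.symm)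
              · simp [g, hx, hy] at h
            · by_cases hy : y = p
              · simp [g, hx, hy] at h
              · simp only [g, if_neg hx, if_neg hy, Option.some.injEq] at h
                exact Or.inr ⟨Quotient.exact h, hx, hy⟩
  have h1 := Nat.card_le_card_of_injective f hf
  rwa [Finite.card_option] at h1

theorem geom_split {r : Setoid S} (hr : GeomNC r) {p q : S} (hpq : r p q) (hne : p ≠ q) :
    ∃ r' : Setoid S, GeomNC r' ∧ r' < r ∧ Nat.card (Quotient r') ≤ Nat.card (Quotient r) + 1 := by
  classical
  -- the lexicographically largest point of the block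
  let B : Finset S := Finset.univ.filter (fun x => r p x)
  have hB : B.Nonempty := ⟨p, by simp only [B, mem_filter, mem_univ, true_and]; exact r.refl' p⟩
  obtain ⟨m, hmB, hmax⟩ := B.exists_max_image (fun x => toLex ((x : Pt).1, (x : Pt).2)) hB
  have hpm : r p m := by
    simpa only [B, mem_filter, mem_univ, true_and] using hmB
  have hmax' : ∀ x : S, r m x → x ≠ m →
      (x : Pt).1 < (m : Pt).1 ∨ ((x : Pt).1 = (m : Pt).1 ∧ (x : Pt).2 < (m : Pt).2) := by
    intro x hx hxm
    have h1 : x ∈ B := by
      simp only [B, mem_filter, mem_univ, true_and]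
      exact r.trans' hpm hx
    have h2 := hmax x h1
    rw [Prod.Lex.toLex_le_toLex] at h2
    rcases h2 with h3 | ⟨h3, h4⟩
    · exact Or.inl h3
    · refine Or.inr ⟨h3, ?_⟩
      rcases h4.lt_or_eq with h5 | h5
      · exact h5
      · exact absurd (Subtype.ext (Prod.ext h3 h5)) hxm
  have hsub : ∀ u, blk (splitOff r m) u ⊆ blk r u := by
    rintro u x ⟨hx, h⟩
    exact ⟨hx, splitOff_le r m h⟩
  -- the point `m` against the rest of its block
  have hsep : ∀ u : S, u ≠ m → r m u →
      Disjoint (convexHull ℝ (blk (splitOff r m) u)) (convexHull ℝ (blk (splitOff r m) m)) := by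
    intro u hum hu
    have hf : Aff (fun x : Pt => x.1 - (m : Pt).1) := by
      intro x y a b hab
      simp only [Prod.fst_add, Prod.smul_fst, smul_eq_mul]
      have : a = 1 - b := by linarith
      rw [this]
      ring
    have hg : Aff (fun x : Pt => x.2) := by
      intro x y a b hab
      simp only [Prod.snd_add, Prod.smul_snd, smul_eq_mul]
    have hblk : ∀ x ∈ blk (splitOff r m) m, x = m := by
      rintro x ⟨hx, h | ⟨_, h, _⟩⟩
      · rw [h]
      · exact absurd rfl h
    have hblu : ∀ x ∈ blk (splitOff r m) u,
        x.1 < (m : Pt).1 ∨ (x.1 = (m : Pt).1 ∧ x.2 < (m : Pt).2) := by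
      rintro x ⟨hx, h | ⟨h1, h2, h3⟩⟩
      · have := hmax' u hu hum
        rw [h] at this
        exact this
      · exact hmax' ⟨x, hx⟩ (r.trans' hu h1) h3
    apply lexsep (blk_fin _ u) hf hg
    · intro x hx
      rcases hblu x hx with h | ⟨h, _⟩ <;> linarith
    · intro x hx
      rw [hblk x hx]
      simp
    · intro x hx hx0 y hy _
      rw [hblk y hy]
      rcases hblu x hx with h | ⟨_, h⟩
      · linarith
      · exact h
  refine ⟨splitOff r m, ?_, ?_, splitOff_card r m⟩
  · intro u w huw
    by_cases h : r u w
    · by_cases hu : u = m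
      · subst hu
        have hw : w ≠ u := by
          rintro rfl
          exact huw ((splitOff r w).refl' w)
        exact (hsep w hw h).symm
      · by_cases hw : w = m
        · subst hw
          exact hsep u hu (r.symm' h)
        · exact absurd (Or.inr ⟨h, hu, hw⟩) huw
    · exact (hr u w h).mono (convexHull_mono (hsub u)) (convexHull_mono (hsub w))
  · refine lt_of_le_of_ne (splitOff_le r m) ?_
    intro heq
    -- another point of the block of `m`
    obtain ⟨z, hz1, hz2⟩ : ∃ z, r m z ∧ z ≠ m := by
      by_cases h : p = m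
      · exact ⟨q, by rw [← h]; exact hpq, by rw [← h]; exact hne.symm⟩
      · exact ⟨p, r.symm' hpm, h⟩
    rw [← heq] at hz1
    rcases hz1 with h | ⟨_, h, _⟩
    · exact hz2 h.symm
    · exact h rfl

theorem exists_split {r : Setoid S} (hr : GeomNC r) (h : Nat.card (Quotient r) < S.card) :
    ∃ r' : Setoid S, GeomNC r' ∧ r' < r ∧ Nat.card (Quotient r') = Nat.card (Quotient r) + 1 := by
  have h1 : ¬ Function.Injective (Quotient.mk r) := by
    intro hinj
    have := Nat.card_le_card_of_injective _ hinj
    rw [Nat.card_eq_fintype_card, Fintype.card_coe] at this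
    omega
  unfold Function.Injective at h1
  push Not at h1
  obtain ⟨p, q, hpq, hne⟩ := h1
  obtain ⟨r', h2, h3, h4⟩ := geom_split hr (Quotient.exact hpq) hne
  have h5 := card_lt h3
  exact ⟨r', h2, h3, by omega⟩

/-- the rank function -/
noncomputable def rk (x : NCP S) : ℕ := S.card - Nat.card (Quotient x.1)

theorem rk_strict : StrictMono (rk (S := S)) := by
  intro x y hxy
  have h1 := card_lt (show x.1 < y.1 from hxy)
  have h2 := card_le x.1
  unfold rk
  omega

theorem height_eq (x : NCP S) : Order.height x = (rk x : ℕ) := by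
  apply le_antisymm
  · have := Order.height_le_height_apply_of_strictMono rk rk_strict x
    rwa [Order.height_nat] at this
  · have key : ∀ m : ℕ, ∀ x : NCP S, rk x = m → (m : ℕ∞) ≤ Order.height x := by
      intro m
      induction m with
      | zero =>
          intro x _
          simp
      | succ m ih =>
          intro x hx
          have h1 : Nat.card (Quotient x.1) < S.card := by
            unfold rk at hx
            omega
          obtain ⟨r', h2, h3, h4⟩ := exists_split x.2 h1
          have h5 : rk (⟨r', h2⟩ : NCP S) = m := by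
            unfold rk at hx ⊢
            simp only
            omega
          have h6 := ih _ h5
          have h7 : (⟨r', h2⟩ : NCP S) < x := h3
          have h8 := Order.height_add_one_le h7
          calc ((m + 1 : ℕ) : ℕ∞) = (m : ℕ∞) + 1 := by push_cast; rfl
            _ ≤ Order.height (⟨r', h2⟩ : NCP S) + 1 := by gcongr
            _ ≤ _ := h8
    exact key (rk x) x rfl

theorem geom_top : GeomNC (⊤ : Setoid S) := fun _ _ h => absurd trivial h

theorem geom_bot : GeomNC (⊥ : Setoid S) := by
  intro u w h
  have hb : ∀ u : S, blk (⊥ : Setoid S) u = {(u : Pt)} := by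
    intro u
    ext x
    constructor
    · rintro ⟨hx, h⟩
      have : u = ⟨x, hx⟩ := h
      rw [this]
      rfl
    · intro hx
      have hx' : x = u := hx
      subst hx'
      exact ⟨u.2, (⊥ : Setoid S).refl' u⟩
  rw [hb, hb, convexHull_singleton, convexHull_singleton, Set.disjoint_singleton]
  intro h'
  exact h (Subtype.ext h')

/-- every maximal chain has `N + 1` elements -/
def Graded (α : Type*) [PartialOrder α] (N : ℕ) : Prop :=
  ∀ c : Set α, IsMaxChain (· ≤ ·) c → c.ncard = N + 1

/-- the number of elements of rank `i` -/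
noncomputable def rnum (α : Type*) [PartialOrder α] (i : ℕ) : ℕ :=
  {x : α | Order.height x = i}.ncard

theorem rank_eq (hS : S.Nonempty) {N : ℕ} (hg : Graded (NCP S) N)
    (hs : rnum (NCP S) 0 = rnum (NCP S) N) : N + 1 = S.card := by
  have : Finite (NCP S) := Subtype.finite
  apply le_antisymm
  · -- `N ≤ n - 1`
    have h0 : (⟨⊥, geom_bot⟩ : NCP S) ∈ {x : NCP S | Order.height x = ((0 : ℕ) : ℕ∞)} := by
      show Order.height _ = _
      rw [Nat.cast_zero, Order.height_eq_zero]
      intro y hy
      exact (bot_le : (⊥ : Setoid S) ≤ y.1)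
    have h1 : 0 < rnum (NCP S) 0 := (Set.ncard_pos (Set.toFinite _)).2 ⟨_, h0⟩
    rw [hs] at h1
    obtain ⟨x, hx⟩ := (Set.ncard_pos (Set.toFinite _)).1 h1
    have hx' : Order.height x = (N : ℕ∞) := hx
    rw [height_eq] at hx'
    have h2 : rk x = N := by exact_mod_cast hx'
    have h3 := card_pos' hS x.1
    have h4 := card_le x.1
    unfold rk at h2
    omega
  · -- `n - 1 ≤ N`
    have htop : Nat.card (Quotient (⊤ : Setoid S)) = 1 := by
      rw [Nat.card_eq_one_iff_unique]
      constructor
      · constructor
        intro a b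
        induction a using Quotient.inductionOn with
        | _ x =>
            induction b using Quotient.inductionOn with
            | _ y => exact Quotient.sound trivial
      · obtain ⟨x, hx⟩ := hS
        exact ⟨Quotient.mk _ ⟨x, hx⟩⟩
    have h1 : Order.height (⟨⊤, geom_top⟩ : NCP S) = ((S.card - 1 : ℕ) : ℕ∞) := by
      rw [height_eq]
      unfold rk
      rw [htop]
    obtain ⟨p, _, hp⟩ := Order.exists_series_of_height_eq_coe _ h1
    have hchain : IsChain (· ≤ ·) (Set.range p.toFun) := by
      rintro _ ⟨i, rfl⟩ _ ⟨j, rfl⟩ _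
      rcases le_total i j with h | h
      · exact Or.inl (p.monotone h)
      · exact Or.inr (p.monotone h)
    obtain ⟨M, hM, hsub⟩ := hchain.exists_maxChain
    have h2 := hg M hM
    have h3 : (Set.range p.toFun).ncard ≤ M.ncard := Set.ncard_le_ncard hsub (Set.toFinite _)
    have h4 : (Set.range p.toFun).ncard = p.length + 1 := by
      have hinj : Function.Injective p.toFun := p.strictMono.injective
      rw [← Set.image_univ, Set.ncard_image_of_injective _ hinj, Set.ncard_univ, Nat.card_fin]
    have h5 : 0 < S.card := hS.card_pos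
    omega

theorem not_symm {k : ℕ} {v : ℕ → Pt} (H : HullData k v S) :
    ¬ ∃ N, Graded (NCP S) N ∧ ∀ i ≤ N, rnum (NCP S) i = rnum (NCP S) (N - i) := by
  classical
  rintro ⟨N, hg, hs⟩
  have hS : S.Nonempty := ⟨v 0, H.vertex 0 (by have := H.poly.k3; omega)⟩
  have hN : N + 1 = S.card := rank_eq hS hg (by have := hs 0 (Nat.zero_le N); simpa using this)
  have : Finite (NCP S) := Subtype.finite
  have : Fintype (NCP S) := Fintype.ofFinite _
  have hrn : ∀ i, rnum (NCP S) i = ((univ : Finset (NCP S)).filter (fun x => rk x = i)).card := by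
    intro i
    unfold rnum
    rw [← Set.ncard_coe_finset]
    congr 1
    ext x
    constructor
    · intro hx
      have hx' : Order.height x = (i : ℕ∞) := hx
      rw [height_eq] at hx'
      have : rk x = i := by exact_mod_cast hx'
      simpa using this
    · intro hx
      have hx' : rk x = i := by simpa using hx
      show Order.height x = (i : ℕ∞)
      rw [height_eq, hx']
  have hrk : ∀ x : NCP S, rk x ≤ N := by
    intro x
    have := card_pos' hS x.1
    unfold rk
    omega
  have hsum : ∀ q : ℝ, ∑ x : NCP S, q ^ rk x = ∑ i ∈ range (N + 1), (rnum (NCP S) i : ℝ) * q ^ i := by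
    intro q
    rw [← sum_fiberwise_of_maps_to (t := range (N + 1)) (g := rk)
      (fun x _ => mem_range.2 (Nat.lt_succ_of_le (hrk x)))]
    apply sum_congr rfl
    intro i _
    rw [hrn, sum_congr rfl (g := fun _ => q ^ i)]
    · rw [sum_const, nsmul_eq_mul]
    · intro x hx
      rw [(mem_filter.1 hx).2]
  have hfin : ∀ q : ℝ, ∑ᶠ r ∈ {r : Setoid S | GeomNC r}, q ^ (S.card - Nat.card (Quotient r)) =
      ∑ x : NCP S, q ^ rk x := by
    intro q
    rw [← finsum_eq_sum_of_fintype, ← finsum_set_coe_eq_finsum_mem]
    rfl
  apply asym H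
  rw [hfin, hfin, hsum, hsum, ← hN, pow_succ, mul_comm ((2 : ℝ) ^ N) 2, mul_assoc]
  congr 1
  rw [mul_sum, ← sum_range_reflect]
  apply sum_congr rfl
  intro i hi
  have hi' : i ≤ N := by
    rw [mem_range] at hi
    omega
  rw [show N + 1 - 1 - i = N - i by omega, ← hs i hi']
  have : (2 : ℝ) ^ N = 2 ^ (N - i) * 2 ^ i := by
    rw [← pow_add]
    congr 1
    omega
  rw [this, one_div, inv_pow]
  field_simp

end

end Pool.Agent.R171.NC
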